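import Mathlib

/-!
# The halving-and-difference sequence: common development

`a 1 = 1`, `a (2 n) = a n`, `a (2 n + 1)` is the least positive `x` with
`|x - a (2 n - 1)| = a n`.
-/

namespace Pool.Agent.HalfDiff

/-- The recursion of the problem (values at index `0` are irrelevant). -/
def IsHalfDiff (a : ℕ → ℕ) : Prop :=
  a 1 = 1 ∧ (∀ n, 1 ≤ n → a (2 * n) = a n) ∧
    ∀ n, 1 ≤ n →
      IsLeast {x : ℕ | 1 ≤ x ∧ |(x : ℤ) - (a (2 * n - 1) : ℤ)| = (a n : ℤ)} (a (2 * n + 1))

/-- The same recursion in a form adapted to `omega`. -/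
structure Rec (a : ℕ → ℕ) : Prop where
  one : a 1 = 1
  dbl : ∀ n, 1 ≤ n → a (2 * n) = a n
  pos : ∀ n, 1 ≤ n → 1 ≤ a n
  lo : ∀ m, a (m + 1) < a (2 * m + 1) → a (2 * m + 3) + a (m + 1) = a (2 * m + 1)
  hi : ∀ m, a (2 * m + 1) ≤ a (m + 1) → a (2 * m + 3) = a (2 * m + 1) + a (m + 1)

theorem rec_of_isHalfDiff {a : ℕ → ℕ} (h : IsHalfDiff a) : Rec a := by
  obtain ⟨h1, h2, h3⟩ := h
  refine ⟨h1, h2, ?_, ?_, ?_⟩
  · intro n
    induction n using Nat.strong_induction_on with
    | _ n ih =>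
      intro hn
      rcases Nat.even_or_odd' n with ⟨m, rfl | rfl⟩
      · rw [h2 m (by omega)]
        exact ih m (by omega) (by omega)
      · rcases Nat.eq_zero_or_pos m with rfl | hm
        · simp [h1]
        · exact (h3 m hm).1.1
  · intro m hm
    have hl := h3 (m + 1) (by omega)
    have e1 : 2 * (m + 1) - 1 = 2 * m + 1 := by omega
    have e2 : 2 * (m + 1) + 1 = 2 * m + 3 := by omega
    rw [e1, e2] at hl
    obtain ⟨⟨hx1, hx2⟩, hx3⟩ := hl
    have hmem : a (2 * m + 1) - a (m + 1) ∈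
        {x : ℕ | 1 ≤ x ∧ |(x : ℤ) - (a (2 * m + 1) : ℤ)| = (a (m + 1) : ℤ)} := by
      refine ⟨by omega, ?_⟩
      rw [Nat.cast_sub hm.le]
      have e3 : ((a (2 * m + 1) : ℤ) - (a (m + 1) : ℤ)) - (a (2 * m + 1) : ℤ)
          = -(a (m + 1) : ℤ) := by ring
      rw [e3, abs_neg, abs_of_nonneg (by positivity)]
    have hle := hx3 hmem
    rcases abs_eq (by positivity : (0 : ℤ) ≤ (a (m + 1) : ℤ)) |>.mp hx2 with h | h <;> omega
  · intro m hm
    have hl := h3 (m + 1) (by omega)
    have e1 : 2 * (m + 1) - 1 = 2 * m + 1 := by omega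
    have e2 : 2 * (m + 1) + 1 = 2 * m + 3 := by omega
    rw [e1, e2] at hl
    obtain ⟨⟨hx1, hx2⟩, hx3⟩ := hl
    rcases abs_eq (by positivity : (0 : ℤ) ≤ (a (m + 1) : ℤ)) |>.mp hx2 with h | h <;> omega

/-- The sequence itself. -/
def hd (n : ℕ) : ℕ :=
  if n ≤ 1 then n
  else if n % 2 = 0 then hd (n / 2)
  else if hd (n / 2) < hd (n - 2) then hd (n - 2) - hd (n / 2)
  else hd (n - 2) + hd (n / 2)
termination_by n
decreasing_by all_goals omega

theorem hd_one : hd 1 = 1 := by
  rw [hd]; simp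

theorem hd_dbl (n : ℕ) (hn : 1 ≤ n) : hd (2 * n) = hd n := by
  rw [hd, if_neg (by omega), if_pos (by omega)]
  congr 1; omega

theorem hd_step (n : ℕ) (hn : 1 ≤ n) : hd (2 * n + 1) =
    if hd n < hd (2 * n - 1) then hd (2 * n - 1) - hd n else hd (2 * n - 1) + hd n := by
  rw [hd, if_neg (by omega), if_neg (by omega)]
  have e1 : (2 * n + 1) / 2 = n := by omega
  have e2 : 2 * n + 1 - 2 = 2 * n - 1 := by omega
  rw [e1, e2]

theorem isHalfDiff_hd : IsHalfDiff hd := by
  refine ⟨hd_one, hd_dbl, ?_⟩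
  intro n hn
  have hpos : ∀ n, 1 ≤ n → 1 ≤ hd n := by
    intro n
    induction n using Nat.strong_induction_on with
    | _ n ih =>
      intro hn
      rcases Nat.even_or_odd' n with ⟨m, rfl | rfl⟩
      · rw [hd_dbl m (by omega)]
        exact ih m (by omega) (by omega)
      · rcases Nat.eq_zero_or_pos m with rfl | hm
        · simp [hd_one]
        · rw [hd_step m hm]
          have i1 := ih m (by omega) hm
          split_ifs <;> omega
  have p1 := hpos n hn
  have p2 := hpos (2 * n - 1) (by omega)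
  rw [hd_step n hn]
  constructor
  · refine ⟨by split_ifs <;> omega, ?_⟩
    split_ifs with hh
    · rw [Nat.cast_sub hh.le]
      have e3 : ((hd (2 * n - 1) : ℤ) - (hd n : ℤ)) - (hd (2 * n - 1) : ℤ)
          = -(hd n : ℤ) := by ring
      rw [e3, abs_neg, abs_of_nonneg (by positivity)]
    · push_cast
      have e3 : ((hd (2 * n - 1) : ℤ) + (hd n : ℤ)) - (hd (2 * n - 1) : ℤ)
          = (hd n : ℤ) := by ring
      rw [e3, abs_of_nonneg (by positivity)]
  · rintro x ⟨hx1, hx2⟩
    rcases abs_eq (by positivity : (0 : ℤ) ≤ (hd n : ℤ)) |>.mp hx2 with h | h <;>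
      split_ifs with hh <;> omega

/-- `a n` is even exactly when `3 ∣ n`. -/
theorem par {a : ℕ → ℕ} (h : Rec a) :
    ∀ n, 1 ≤ n → a n % 2 = if n % 3 = 0 then 0 else 1 := by
  intro n
  induction n using Nat.strong_induction_on with
  | _ n ih =>
    intro hn
    rcases Nat.even_or_odd' n with ⟨m, rfl | rfl⟩
    · have hm : 1 ≤ m := by omega
      rw [h.dbl m hm, ih m (by omega) hm]
      split_ifs <;> omega
    · rcases Nat.eq_zero_or_pos m with rfl | hm
      · simp [h.one]
      · obtain ⟨k, rfl⟩ : ∃ k, m = k + 1 := ⟨m - 1, by omega⟩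
        have i1 := ih (2 * k + 1) (by omega) (by omega)
        have i2 := ih (k + 1) (by omega) (by omega)
        have e : 2 * (k + 1) + 1 = 2 * k + 3 := by ring
        rw [e]
        have e4 : a (2 * k + 3) % 2 = (a (2 * k + 1) + a (k + 1)) % 2 := by
          rcases Nat.lt_or_ge (a (k + 1)) (a (2 * k + 1)) with hh | hh
          · have := h.lo k hh; omega
          · have := h.hi k hh; omega
        rw [e4, Nat.add_mod]
        have hk : k % 3 = 0 ∨ k % 3 = 1 ∨ k % 3 = 2 := by omega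
        rcases hk with hk | hk | hk
        · rw [if_neg (by omega)] at i1 i2
          rw [if_pos (by omega), i1, i2]
        · rw [if_pos (by omega)] at i1
          rw [if_neg (by omega)] at i2
          rw [if_neg (by omega), i1, i2]
        · rw [if_neg (by omega)] at i1
          rw [if_pos (by omega)] at i2
          rw [if_neg (by omega), i1, i2]

/-- The bounds used in the induction: `1, 2, 3, 6, 12, 24, …`. -/
def K : ℕ → ℕ
  | 0 => 1
  | 1 => 2
  | (i + 2) => 3 * 2 ^ i

theorem K_one : K 1 = 2 := rfl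
theorem K_two : K 2 = 3 := rfl
theorem K_three : K 3 = 6 := rfl
theorem K_add_two (i : ℕ) : K (i + 2) = 3 * 2 ^ i := rfl

theorem K_dbl (i : ℕ) : K (i + 3) = 2 * K (i + 2) := by
  change 3 * 2 ^ (i + 1) = 2 * (3 * 2 ^ i)
  ring

theorem K_mono (i : ℕ) : K i ≤ K (i + 1) := by
  match i with
  | 0 => decide
  | 1 => decide
  | (j + 2) => rw [show j + 2 + 1 = j + 3 by omega, K_dbl]; omega

theorem step_le {a : ℕ → ℕ} (h : Rec a) (m B : ℕ) (h1 : a (2 * m + 1) ≤ B)
    (h2 : 2 * a (m + 1) ≤ B) : a (2 * m + 3) ≤ B := by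
  rcases Nat.lt_or_ge (a (m + 1)) (a (2 * m + 1)) with hh | hh
  · have := h.lo m hh; omega
  · have := h.hi m hh; omega

theorem pow_dbl {a : ℕ → ℕ} (h : Rec a) (n : ℕ) (hn : 1 ≤ n) : ∀ k, a (n * 2 ^ k) = a n := by
  intro k
  induction k with
  | zero => simp
  | succ k ih =>
    rw [show n * 2 ^ (k + 1) = 2 * (n * 2 ^ k) by ring,
      h.dbl _ (Nat.mul_pos hn (by positivity)), ih]

theorem two_of {a : ℕ → ℕ} (h : Rec a) {L : ℕ} (hL : 1 ≤ L) (hL3 : L % 3 = 1) (h1 : a L = 1)
    (hu : a (2 * L - 1) ≤ 3) : a (2 * L + 1) = 2 := by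
  obtain ⟨c, rfl⟩ : ∃ c, L = c + 1 := ⟨L - 1, by omega⟩
  have hp := par h (2 * c + 1) (by omega)
  rw [if_neg (by omega)] at hp
  rw [show 2 * (c + 1) - 1 = 2 * c + 1 by omega] at hu
  rw [show 2 * (c + 1) + 1 = 2 * c + 3 by omega]
  rcases Nat.lt_or_ge (a (c + 1)) (a (2 * c + 1)) with hh | hh
  · have := h.lo c hh; omega
  · have := h.hi c hh
    have := h.pos (2 * c + 1) (by omega)
    omega

theorem entries {a : ℕ → ℕ} (h : Rec a) {L : ℕ} (hL : 1 ≤ L) (h1 : a L = 1)
    (h2 : a (2 * L + 1) = 2) (i : ℕ)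
    (hu : ∀ j, 1 ≤ j → j ≤ i → a (L * 2 ^ j - 1) ≤ K (j + 1)) :
    ∀ j, j ≤ i → ∀ s, s < 2 ^ j → a (L * 2 ^ j + s) ≤ K (j + 1) := by
  intro j
  induction j with
  | zero =>
    intro _ s hs
    have : s = 0 := by simpa using hs
    subst this
    simp [h1, K]
  | succ j ih =>
    intro hj
    match j, ih, hj with
    | 0, _, _ =>
      intro s hs
      have hs' : s = 0 ∨ s = 1 := by
        have : s < 2 := by simpa using hs
        omega
      rcases hs' with rfl | rfl
      · rw [show L * 2 ^ (0 + 1) + 0 = 2 * L by ring, h.dbl L hL, h1]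
        decide
      · rw [show L * 2 ^ (0 + 1) + 1 = 2 * L + 1 by ring, h2]
        decide
    | (j + 1), ih, hj =>
      have ih' := ih (by omega)
      have hLp : 1 ≤ L * 2 ^ (j + 1) := Nat.mul_pos hL (by positivity)
      have hodd : ∀ t, t < 2 ^ (j + 1) → a (L * 2 ^ (j + 2) + (2 * t + 1)) ≤ K (j + 3) := by
        intro t
        induction t with
        | zero =>
          intro _
          obtain ⟨c, hc⟩ : ∃ c, L * 2 ^ (j + 1) = c + 1 := ⟨L * 2 ^ (j + 1) - 1, by omega⟩
          have e1 : L * 2 ^ (j + 2) = 2 * (c + 1) := by rw [← hc]; ring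
          have u := hu (j + 2) (by omega) hj
          rw [e1] at u ⊢
          rw [show 2 * (c + 1) + (2 * 0 + 1) = 2 * c + 3 by ring]
          rw [show 2 * (c + 1) - 1 = 2 * c + 1 by omega] at u
          apply step_le h c _ u
          rw [← hc, pow_dbl h L hL, h1, K_add_two]
          have : 1 ≤ 2 ^ (j + 1) := Nat.one_le_two_pow
          omega
        | succ t iht =>
          intro ht
          have i1 := iht (by omega)
          have i2 := ih' (t + 1) ht
          have e1 : L * 2 ^ (j + 2) + (2 * t + 1) = 2 * (L * 2 ^ (j + 1) + t) + 1 := by ring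
          have e2 : L * 2 ^ (j + 2) + (2 * (t + 1) + 1) = 2 * (L * 2 ^ (j + 1) + t) + 3 := by ring
          rw [e1] at i1
          rw [e2]
          apply step_le h _ _ i1
          rw [K_dbl]
          have i3 : a (L * 2 ^ (j + 1) + t + 1) ≤ K (j + 2) := i2
          omega
      intro s hs
      rcases Nat.even_or_odd' s with ⟨t, rfl | rfl⟩
      · have ht : t < 2 ^ (j + 1) := by
          rw [show j + 1 + 1 = (j + 1) + 1 by rfl, pow_succ] at hs; omega
        rw [show L * 2 ^ (j + 1 + 1) + 2 * t = 2 * (L * 2 ^ (j + 1) + t) by ring,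
          h.dbl _ (by omega)]
        exact (ih' t ht).trans (K_mono _)
      · have ht : t < 2 ^ (j + 1) := by
          rw [show j + 1 + 1 = (j + 1) + 1 by rfl, pow_succ] at hs; omega
        exact hodd t ht

theorem sum_split (f : ℕ → ℕ) (n : ℕ) :
    ∑ l ∈ Finset.range (2 * n), f l = ∑ l ∈ Finset.range n, (f (2 * l) + f (2 * l + 1)) := by
  induction n with
  | zero => simp
  | succ n ih =>
    rw [show 2 * (n + 1) = 2 * n + 1 + 1 by ring, Finset.sum_range_succ, Finset.sum_range_succ,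
      ih, Finset.sum_range_succ]
    ring

theorem pair_ge {a : ℕ → ℕ} (h : Rec a) (μ : ℕ) :
    a (2 * μ + 1) + 2 ≤ a (4 * μ + 1) + a (4 * μ + 3) := by
  have p := h.pos (4 * μ + 1) (by omega)
  have e1 : 2 * (2 * μ) + 1 = 4 * μ + 1 := by ring
  have e2 : 2 * (2 * μ) + 3 = 4 * μ + 3 := by ring
  rcases Nat.lt_or_ge (a (2 * μ + 1)) (a (2 * (2 * μ) + 1)) with hh | hh
  · have := h.lo (2 * μ) hh
    rw [e1, e2] at this
    rw [e1] at hh
    omega
  · have := h.hi (2 * μ) hh
    rw [e1, e2] at this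
    rw [e1] at hh
    omega

theorem F_bound {a : ℕ → ℕ} (h : Rec a) {L : ℕ} (h2 : a (2 * L + 1) = 2) :
    ∀ j, 2 ^ (j + 1) ≤ ∑ l ∈ Finset.range (2 ^ j), a (2 * (L * 2 ^ j + l) + 1) := by
  intro j
  induction j with
  | zero => simp [h2]
  | succ j ih =>
    have e : (2 : ℕ) ^ (j + 1) = 2 * 2 ^ j := by ring
    have key : ∑ l ∈ Finset.range (2 ^ j), (a (2 * (L * 2 ^ j + l) + 1) + 2) ≤
        ∑ l ∈ Finset.range (2 ^ (j + 1)), a (2 * (L * 2 ^ (j + 1) + l) + 1) := by
      rw [show Finset.range (2 ^ (j + 1)) = Finset.range (2 * 2 ^ j) by rw [e], sum_split]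
      apply Finset.sum_le_sum
      intro l _
      have hp := pair_ge h (L * 2 ^ j + l)
      rw [show 2 * (L * 2 ^ (j + 1) + 2 * l) + 1 = 4 * (L * 2 ^ j + l) + 1 by ring,
        show 2 * (L * 2 ^ (j + 1) + (2 * l + 1)) + 1 = 4 * (L * 2 ^ j + l) + 3 by ring]
      exact hp
    rw [Finset.sum_add_distrib, Finset.sum_const, Finset.card_range, smul_eq_mul] at key
    rw [pow_succ 2 (j + 1)]
    omega

theorem T_bound {a : ℕ → ℕ} (h : Rec a) {L : ℕ} (hL : 1 ≤ L) (h1 : a L = 1)
    (h2 : a (2 * L + 1) = 2) :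
    ∀ j, 2 ^ (j + 1) ≤ (∑ l ∈ Finset.range (2 ^ j), a (L * 2 ^ j + l)) + 1 := by
  intro j
  induction j with
  | zero => simp [h1]
  | succ j ih =>
    have e : (2 : ℕ) ^ (j + 1) = 2 * 2 ^ j := by ring
    have key : ∑ l ∈ Finset.range (2 ^ (j + 1)), a (L * 2 ^ (j + 1) + l) =
        (∑ l ∈ Finset.range (2 ^ j), a (L * 2 ^ j + l)) +
        ∑ l ∈ Finset.range (2 ^ j), a (2 * (L * 2 ^ j + l) + 1) := by
      rw [show Finset.range (2 ^ (j + 1)) = Finset.range (2 * 2 ^ j) by rw [e], sum_split,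
        ← Finset.sum_add_distrib]
      apply Finset.sum_congr rfl
      intro l _
      have hp : 1 ≤ L * 2 ^ j := Nat.mul_pos hL (by positivity)
      rw [show L * 2 ^ (j + 1) + 2 * l = 2 * (L * 2 ^ j + l) by ring, h.dbl _ (by omega),
        show L * 2 ^ (j + 1) + (2 * l + 1) = 2 * (L * 2 ^ j + l) + 1 by ring]
    have hF := F_bound h h2 j
    rw [key, pow_succ 2 (j + 1)]
    omega

/-- The main one-sided bound: `a ((L + 1) 2 ^ i - 1) ≤ K i`. -/
theorem end_bound {a : ℕ → ℕ} (h : Rec a) {L : ℕ} (hL : 1 ≤ L) (hL3 : L % 3 = 1)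
    (h1 : a L = 1) : ∀ i, 1 ≤ i → (∀ j, 1 ≤ j → j ≤ i → a (L * 2 ^ j - 1) ≤ K (j + 1)) →
    a ((L + 1) * 2 ^ i - 1) ≤ K i := by
  intro i
  induction i using Nat.strong_induction_on with
  | _ i ih =>
    intro hi hu
    have hu1 := hu 1 le_rfl hi
    rw [pow_one, K_two, mul_comm L 2] at hu1
    have h2 : a (2 * L + 1) = 2 := two_of h hL hL3 h1 hu1
    match i, ih, hi, hu with
    | 1, _, _, _ =>
      rw [show (L + 1) * 2 ^ 1 - 1 = 2 * L + 1 by omega, h2, K_one]
    | 2, _, _, hu =>
      have u := hu 2 (by omega) le_rfl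
      rw [K_three] at u
      obtain ⟨c, rfl⟩ : ∃ c, L = c + 1 := ⟨L - 1, by omega⟩
      have hp := par h (4 * c + 3) (by omega)
      rw [if_pos (by omega)] at hp
      have hp0 := h.pos (4 * c + 3) (by omega)
      have hc2 : a (2 * c + 2) = 1 := by
        rw [show 2 * c + 2 = 2 * (c + 1) by ring, h.dbl _ (by omega), h1]
      rw [show (c + 1) * 2 ^ 2 - 1 = 4 * c + 3 by omega] at u
      rw [show (c + 1 + 1) * 2 ^ 2 - 1 = 4 * c + 7 by omega, K_two]
      have s1 := h.lo (2 * c + 1)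
      rw [show 2 * (2 * c + 1) + 1 = 4 * c + 3 by ring,
        show 2 * (2 * c + 1) + 3 = 4 * c + 5 by ring,
        show 2 * c + 1 + 1 = 2 * c + 2 by ring, hc2] at s1
      have s1' := s1 (by omega)
      have h2' : a (2 * c + 3) = 2 := h2
      have s2 := h.lo (2 * c + 2)
      have s3 := h.hi (2 * c + 2)
      rw [show 2 * (2 * c + 2) + 1 = 4 * c + 5 by ring,
        show 2 * (2 * c + 2) + 3 = 4 * c + 7 by ring,
        show 2 * c + 2 + 1 = 2 * c + 3 by ring, h2'] at s2 s3
      rcases Nat.lt_or_ge 2 (a (4 * c + 5)) with hh | hh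
      · have := s2 hh; omega
      · have := s3 hh; omega
    | (k + 3), ih, _, hu =>
      -- `i = k + 3`; `c + 1 = L * 2 ^ (k + 1)`
      have hent := entries h hL h1 h2 (k + 3) hu
      have hLp : 1 ≤ L * 2 ^ (k + 1) := Nat.mul_pos hL (by positivity)
      obtain ⟨c, hc⟩ : ∃ c, L * 2 ^ (k + 1) = c + 1 := ⟨L * 2 ^ (k + 1) - 1, by omega⟩
      have hc2 : L * 2 ^ (k + 2) = 2 * (c + 1) := by rw [← hc]; ring
      have hc3 : L * 2 ^ (k + 3) = 4 * (c + 1) := by rw [← hc]; ring
      have hU := hu (k + 3) (by omega) le_rfl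
      rw [hc3, show 4 * (c + 1) - 1 = 4 * c + 3 by omega] at hU
      have hy0 := hu (k + 2) (by omega) (by omega)
      rw [hc2, show 2 * (c + 1) - 1 = 2 * c + 1 by omega] at hy0
      -- the entry bounds
      have hp : ∀ r, r < 2 ^ (k + 1) → a (c + r + 1) ≤ K (k + 2) := by
        intro r hr
        have := hent (k + 1) (by omega) r hr
        rw [hc] at this
        rwa [show c + r + 1 = c + 1 + r by ring]
      have hy : ∀ r, r < 2 ^ (k + 1) → a (2 * (c + r) + 1) ≤ K (k + 3) := by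
        intro r hr
        rcases Nat.eq_zero_or_pos r with rfl | hr0
        · simpa using hy0
        · have := hent (k + 2) (by omega) (2 * r - 1) (by rw [pow_succ 2 (k + 1)]; omega)
          rw [hc2] at this
          rwa [show 2 * (c + r) + 1 = 2 * (c + 1) + (2 * r - 1) by omega]
      have hBB := K_dbl k
      -- the walk
      have inv : ∀ r, r ≤ 2 ^ (k + 1) →
          (a (4 * (c + r) + 3) ≤ K (k + 3) ∨ a (4 * (c + r) + 3) ≤ 2 * a (2 * (c + r) + 1) ∨
          a (4 * (c + r) + 3) +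
            ∑ l ∈ Finset.range r, (a (c + l + 1) + a (2 * (c + l) + 3)) ≤ a (4 * c + 3)) := by
        intro r
        induction r with
        | zero => intro _; right; right; simp
        | succ r ihr =>
          intro hr
          have i0 := ihr (by omega)
          have p1 := hp r (by omega)
          have y1 := hy r (by omega)
          rw [Finset.sum_range_succ]
          generalize hm : c + r = m at *
          have em : c + (r + 1) = m + 1 := by omega
          rw [em]
          rw [show 4 * (m + 1) + 3 = 4 * m + 7 by ring, show 2 * (m + 1) + 1 = 2 * m + 3 by ring]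
          -- recursions
          have q1 := h.lo m
          have q2 := h.hi m
          have x1 := h.lo (2 * m + 1)
          have x2 := h.hi (2 * m + 1)
          have d1 : a (2 * m + 2) = a (m + 1) := by
            rw [show 2 * m + 2 = 2 * (m + 1) by ring, h.dbl _ (by omega)]
          rw [show 2 * (2 * m + 1) + 1 = 4 * m + 3 by ring,
            show 2 * (2 * m + 1) + 3 = 4 * m + 5 by ring,
            show 2 * m + 1 + 1 = 2 * m + 2 by ring, d1] at x1 x2
          have z1 := h.lo (2 * m + 2)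
          have z2 := h.hi (2 * m + 2)
          rw [show 2 * (2 * m + 2) + 1 = 4 * m + 5 by ring,
            show 2 * (2 * m + 2) + 3 = 4 * m + 7 by ring,
            show 2 * m + 2 + 1 = 2 * m + 3 by ring] at z1 z2
          rcases Nat.lt_or_ge (a (2 * m + 3)) (a (4 * m + 5)) with hz | hz
          · have z1' := z1 hz
            rcases Nat.lt_or_ge (a (m + 1)) (a (4 * m + 3)) with hx | hx
            · have x1' := x1 hx
              rcases Nat.lt_or_ge (a (m + 1)) (a (2 * m + 1)) with hq | hq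
              · have q1' := q1 hq
                rcases i0 with i0 | i0 | i0
                · left; omega
                · left; omega
                · right; right; omega
              · have q2' := q2 hq
                rcases i0 with i0 | i0 | i0
                · left; omega
                · left; omega
                · right; right; omega
            · have x2' := x2 hx
              left; omega
          · have z2' := z2 hz
            right; left; omega
      have fin := inv (2 ^ (k + 1)) le_rfl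
      -- identify the indices at the end
      have e1 : (L + 1) * 2 ^ (k + 3) - 1 = 4 * (c + 2 ^ (k + 1)) + 3 := by
        have : (L + 1) * 2 ^ (k + 3) = L * 2 ^ (k + 3) + 4 * 2 ^ (k + 1) := by ring
        rw [this, hc3]; omega
      have e2 : (L + 1) * 2 ^ (k + 2) - 1 = 2 * (c + 2 ^ (k + 1)) + 1 := by
        have : (L + 1) * 2 ^ (k + 2) = L * 2 ^ (k + 2) + 2 * 2 ^ (k + 1) := by ring
        rw [this, hc2]; omega
      have prev := ih (k + 2) (by omega) (by omega) (fun j hj1 hj2 => hu j hj1 (by omega))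
      rw [e2] at prev
      rw [e1]
      rcases fin with fin | fin | fin
      · exact fin
      · omega
      · have hS : 2 ^ (k + 2) + 2 ^ (k + 2) ≤
            (∑ l ∈ Finset.range (2 ^ (k + 1)), (a (c + l + 1) + a (2 * (c + l) + 3))) + 1 := by
          rw [Finset.sum_add_distrib]
          have hT := T_bound h hL h1 h2 (k + 1)
          have hF := F_bound h h2 (k + 1)
          rw [hc] at hT hF
          have f1 : ∑ l ∈ Finset.range (2 ^ (k + 1)), a (c + 1 + l) =
              ∑ l ∈ Finset.range (2 ^ (k + 1)), a (c + l + 1) := by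
            apply Finset.sum_congr rfl
            intro l _
            rw [show c + 1 + l = c + l + 1 by ring]
          have f2 : ∑ l ∈ Finset.range (2 ^ (k + 1)), a (2 * (c + 1 + l) + 1) =
              ∑ l ∈ Finset.range (2 ^ (k + 1)), a (2 * (c + l) + 3) := by
            apply Finset.sum_congr rfl
            intro l _
            rw [show 2 * (c + 1 + l) + 1 = 2 * (c + l) + 3 by ring]
          rw [f1] at hT
          rw [f2] at hF
          rw [show k + 1 + 1 = k + 2 by ring] at hT hF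
          omega
        have hK4 : K (k + 3 + 1) = 3 * 2 ^ (k + 2) := rfl
        have hK3 : K (k + 3) = 3 * 2 ^ (k + 1) := rfl
        rw [hK4] at hU
        rw [hK3]
        have e5 : (2 : ℕ) ^ (k + 2) = 2 * 2 ^ (k + 1) := by ring
        have e6 : 1 ≤ 2 ^ (k + 1) := Nat.one_le_two_pow
        omega

/-- `a (2 ^ (i + 1) - 1) ≤ K i`. -/
theorem dyadic_end {a : ℕ → ℕ} (h : Rec a) : ∀ i, 1 ≤ i → a (2 * 2 ^ i - 1) ≤ K i := by
  intro i
  induction i using Nat.strong_induction_on with
  | _ i ih =>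
    intro hi
    have := end_bound h (L := 1) le_rfl (by norm_num) h.one i hi (by
      intro j hj1 hj2
      match j, hj1, hj2 with
      | 1, _, _ =>
        rw [show 1 * 2 ^ 1 - 1 = 1 by norm_num, h.one, K_two]; norm_num
      | (j + 2), _, hj2 =>
        have := ih (j + 1) (by omega) (by omega)
        rw [show 1 * 2 ^ (j + 2) = 2 * 2 ^ (j + 1) by ring]
        exact this.trans ((K_mono _).trans (K_mono _)))
    simpa using this

/-- The chain `n ↦ 2 n + 1` from `n ≡ 2 (mod 3)` with `a n = 1` and a small left neighbour. -/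
theorem chain {a : ℕ → ℕ} (h : Rec a) {q : ℕ} (hq : 1 ≤ q) (hq3 : q % 3 = 0)
    (h0 : a (q - 1) = 1) (hb0 : ∀ i, 1 ≤ i → a ((q - 1) * 2 ^ i - 1) ≤ K i) :
    ∀ t, a (q * 2 ^ t - 1) = 1 ∧ ∀ i, 1 ≤ i → a ((q * 2 ^ t - 1) * 2 ^ i - 1) ≤ K i := by
  intro t
  induction t with
  | zero => simpa using ⟨h0, hb0⟩
  | succ t ih =>
    obtain ⟨ih1, ih2⟩ := ih
    have hp : 1 ≤ 2 ^ t := Nat.one_le_two_pow
    obtain ⟨r, hr⟩ : ∃ r, q = 3 * r := ⟨q / 3, by omega⟩
    have hqt : q * 2 ^ t = 3 * (r * 2 ^ t) := by rw [hr]; ring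
    have hrt : 1 ≤ r * 2 ^ t := Nat.mul_pos (by omega) hp
    obtain ⟨n, hn⟩ : ∃ n, q * 2 ^ t - 1 = n := ⟨_, rfl⟩
    rw [hn] at ih1 ih2
    have hn3 : n % 3 = 2 := by omega
    have hn1 : 1 ≤ n := by omega
    have e1 : q * 2 ^ (t + 1) - 1 = 2 * n + 1 := by
      rw [show q * 2 ^ (t + 1) = 2 * (q * 2 ^ t) by ring]; omega
    rw [e1]
    have hL1 : a (2 * n) = 1 := by rw [h.dbl n hn1, ih1]
    refine ⟨?_, ?_⟩
    · obtain ⟨c, rfl⟩ : ∃ c, n = c + 1 := ⟨n - 1, by omega⟩
      have hb := ih2 1 le_rfl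
      rw [K_one, show (c + 1) * 2 ^ 1 - 1 = 2 * c + 1 by omega] at hb
      have hpar := par h (2 * c + 1) (by omega)
      rw [if_pos (by omega)] at hpar
      have hpos := h.pos (2 * c + 1) (by omega)
      have := h.lo c (by omega)
      rw [show 2 * (c + 1) + 1 = 2 * c + 3 by ring]
      omega
    · intro i hi
      exact end_bound h (L := 2 * n) (by omega) (by omega) hL1 i hi (by
        intro j hj1 hj2
        have := ih2 (j + 1) (by omega)
        rwa [show 2 * n * 2 ^ j = n * 2 ^ (j + 1) by ring])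

/-- If `a (q * 2 ^ t - 1) = 1` for all `t`, the block after `q * 2 ^ t` is a scaled copy of the
beginning of the sequence. -/
theorem scaled {a : ℕ → ℕ} (h : Rec a) {q : ℕ} (hq : 1 ≤ q)
    (he : ∀ t, 1 ≤ t → a (q * 2 ^ t - 1) = 1) : ∀ k s, 1 ≤ s → s < 2 ^ k →
    a (q * 2 ^ k + s) = (a q + 1) * a s := by
  intro k
  induction k with
  | zero => intro s h1 h2; simp at h2; omega
  | succ k ih =>
    have hp : 1 ≤ q * 2 ^ k := Nat.mul_pos hq (by positivity)
    have hodd : ∀ t, 2 * t + 1 < 2 ^ (k + 1) → a (q * 2 ^ (k + 1) + (2 * t + 1)) =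
        (a q + 1) * a (2 * t + 1) := by
      intro t
      induction t with
      | zero =>
        intro _
        have e1 := he (k + 1) (by omega)
        have e2 : a (q * 2 ^ k) = a q := pow_dbl h q hq k
        obtain ⟨c, hc⟩ : ∃ c, q * 2 ^ k = c + 1 := ⟨q * 2 ^ k - 1, by omega⟩
        have hc2 : q * 2 ^ (k + 1) = 2 * (c + 1) := by rw [← hc]; ring
        rw [hc2, show 2 * (c + 1) - 1 = 2 * c + 1 by omega] at e1
        rw [hc] at e2
        have hq1 := h.pos q hq
        have := h.hi c (by omega)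
        rw [hc2, show 2 * (c + 1) + (2 * 0 + 1) = 2 * c + 3 by ring, this, e1, e2]
        simp [h.one, add_comm]
      | succ t iht =>
        intro ht
        have i1 := iht (by omega)
        have i2 := ih (t + 1) (by omega) (by rw [pow_succ] at ht; omega)
        rw [show q * 2 ^ (k + 1) + (2 * t + 1) = 2 * (q * 2 ^ k + t) + 1 by ring] at i1
        rw [show q * 2 ^ k + (t + 1) = q * 2 ^ k + t + 1 by ring] at i2
        rw [show q * 2 ^ (k + 1) + (2 * (t + 1) + 1) = 2 * (q * 2 ^ k + t) + 3 by ring,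
          show 2 * (t + 1) + 1 = 2 * t + 3 by ring]
        have hw : 0 < a q + 1 := by omega
        rcases Nat.lt_or_ge (a (t + 1)) (a (2 * t + 1)) with hh | hh
        · have h1 := h.lo t hh
          have h2 := h.lo (q * 2 ^ k + t) (by
            rw [i1, i2]; exact Nat.mul_lt_mul_of_pos_left hh hw)
          rw [i1, i2] at h2
          have e5 : (a q + 1) * a (2 * t + 1) =
              (a q + 1) * a (2 * t + 3) + (a q + 1) * a (t + 1) := by
            rw [← h1, Nat.mul_add]
          omega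
        · have h1 := h.hi t hh
          have h2 := h.hi (q * 2 ^ k + t) (by
            rw [i1, i2]; exact Nat.mul_le_mul_left _ hh)
          rw [i1, i2, ← Nat.mul_add, ← h1] at h2
          exact h2
    intro s hs1 hs2
    rcases Nat.even_or_odd' s with ⟨t, rfl | rfl⟩
    · have := ih t (by omega) (by rw [pow_succ] at hs2; omega)
      rw [show q * 2 ^ (k + 1) + 2 * t = 2 * (q * 2 ^ k + t) by ring, h.dbl _ (by omega), this,
        h.dbl _ (by omega)]
    · exact hodd t hs2

/-- The scaling criterion. -/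
theorem criterion {a : ℕ → ℕ} (h : Rec a) {q : ℕ} (hq : 1 ≤ q) (hq3 : q % 3 = 0)
    (h1 : a (q - 1) = 1) (hb : ∀ i, 1 ≤ i → 4 * a ((q - 1) * 2 ^ i - 1) ≤ 3 * 2 ^ i + 2) :
    (∀ t, a (q * 2 ^ t - 1) = 1) ∧
    ∀ k s, 1 ≤ s → s < 2 ^ k → a (q * 2 ^ k + s) = (a q + 1) * a s := by
  have hc := chain h hq hq3 h1 (by
    intro i hi
    have hi2 := hb i hi
    match i, hi, hi2 with
    | 1, _, hi2 => rw [K_one]; norm_num at hi2 ⊢; omega
    | (i + 2), _, hi2 =>
      rw [K_add_two]
      have e : 3 * 2 ^ (i + 2) = 4 * (3 * 2 ^ i) := by ring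
      rw [e] at hi2
      omega)
  exact ⟨fun t => (hc t).1, scaled h hq (fun t _ => (hc t).1)⟩

theorem three_end {a : ℕ → ℕ} (h : Rec a) (t : ℕ) : a (3 * 2 ^ t - 1) = 1 := by
  have a2 : a 2 = 1 := by have := h.dbl 1 le_rfl; simpa [h.one] using this
  refine (chain h (q := 3) (by norm_num) (by norm_num) (by simpa using a2) ?_ t).1
  intro i hi
  simpa using dyadic_end h i hi

/-- The scaling law with factor `3`. -/
theorem scaling {a : ℕ → ℕ} (h : Rec a) (k s : ℕ) (h1 : 1 ≤ s) (h2 : s < 2 ^ k) :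
    a (3 * 2 ^ k + s) = 3 * a s := by
  have a3 : a 3 = 2 := by
    have := h.hi 0 (by simp)
    simpa [h.one] using this
  have := scaled h (q := 3) (by norm_num) (fun t _ => three_end h t) k s h1 h2
  rw [this, a3]

theorem end_triple {a : ℕ → ℕ} (h : Rec a) (k : ℕ) (hk : 1 ≤ k) :
    a (2 ^ (k + 2) - 1) = 3 * a (2 ^ k - 1) := by
  have hp : 2 ≤ 2 ^ k := by
    calc 2 = 2 ^ 1 := by norm_num
      _ ≤ 2 ^ k := Nat.pow_le_pow_right (by norm_num) hk
  have := scaling h k (2 ^ k - 1) (by omega) (by omega)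
  rw [← this]
  congr 1
  rw [pow_add]; omega

theorem end_values {a : ℕ → ℕ} (h : Rec a) (j : ℕ) :
    a (2 ^ (2 * j + 1) - 1) = 3 ^ j ∧ a (2 ^ (2 * j + 2) - 1) = 2 * 3 ^ j := by
  induction j with
  | zero =>
    have a3 : a 3 = 2 := by
      have := h.hi 0 (by simp)
      simpa [h.one] using this
    simp [h.one, a3]
  | succ j ih =>
    obtain ⟨i1, i2⟩ := ih
    have e1 := end_triple h (2 * j + 1) (by omega)
    have e2 := end_triple h (2 * j + 2) (by omega)
    rw [show 2 * (j + 1) + 1 = 2 * j + 1 + 2 by ring, e1, i1,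
      show 2 * (j + 1) + 2 = 2 * j + 2 + 2 by ring, e2, i2]
    constructor <;> ring

/-- The walk along three consecutive rows, in the form used twice below. -/
theorem walk {a : ℕ → ℕ} (h : Rec a) (c N B : ℕ) (hp : ∀ r, r < N → 2 * a (c + r + 1) ≤ B)
    (hy : ∀ r, r < N → a (2 * (c + r) + 1) ≤ B) : ∀ r, r ≤ N →
    (a (4 * (c + r) + 3) ≤ B ∨ a (4 * (c + r) + 3) ≤ 2 * a (2 * (c + r) + 1) ∨
      a (4 * (c + r) + 3) +
        ∑ l ∈ Finset.range r, (a (c + l + 1) + a (2 * (c + l) + 3)) ≤ a (4 * c + 3)) := by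
  intro r
  induction r with
  | zero => intro _; right; right; simp
  | succ r ihr =>
    intro hr
    have i0 := ihr (by omega)
    have p1 := hp r (by omega)
    have y1 := hy r (by omega)
    rw [Finset.sum_range_succ]
    generalize hm : c + r = m at *
    have em : c + (r + 1) = m + 1 := by omega
    rw [em]
    rw [show 4 * (m + 1) + 3 = 4 * m + 7 by ring, show 2 * (m + 1) + 1 = 2 * m + 3 by ring]
    have q1 := h.lo m
    have q2 := h.hi m
    have x1 := h.lo (2 * m + 1)
    have x2 := h.hi (2 * m + 1)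
    have d1 : a (2 * m + 2) = a (m + 1) := by
      rw [show 2 * m + 2 = 2 * (m + 1) by ring, h.dbl _ (by omega)]
    rw [show 2 * (2 * m + 1) + 1 = 4 * m + 3 by ring,
      show 2 * (2 * m + 1) + 3 = 4 * m + 5 by ring,
      show 2 * m + 1 + 1 = 2 * m + 2 by ring, d1] at x1 x2
    have z1 := h.lo (2 * m + 2)
    have z2 := h.hi (2 * m + 2)
    rw [show 2 * (2 * m + 2) + 1 = 4 * m + 5 by ring,
      show 2 * (2 * m + 2) + 3 = 4 * m + 7 by ring,
      show 2 * m + 2 + 1 = 2 * m + 3 by ring] at z1 z2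
    rcases Nat.lt_or_ge (a (2 * m + 3)) (a (4 * m + 5)) with hz | hz
    · have z1' := z1 hz
      rcases Nat.lt_or_ge (a (m + 1)) (a (4 * m + 3)) with hx | hx
      · have x1' := x1 hx
        rcases Nat.lt_or_ge (a (m + 1)) (a (2 * m + 1)) with hq | hq
        · have q1' := q1 hq
          rcases i0 with i0 | i0 | i0
          · left; omega
          · left; omega
          · right; right; omega
        · have q2' := q2 hq
          rcases i0 with i0 | i0 | i0
          · left; omega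
          · left; omega
          · right; right; omega
      · have x2' := x2 hx
        left; omega
    · have z2' := z2 hz
      right; left; omega

theorem F_gen {a : ℕ → ℕ} (h : Rec a) (L : ℕ) :
    ∀ j, 2 ^ (j + 1) ≤ (∑ l ∈ Finset.range (2 ^ j), a (2 * (L * 2 ^ j + l) + 1)) + 1 := by
  intro j
  induction j with
  | zero => have := h.pos (2 * L + 1) (by omega); simp; omega
  | succ j ih =>
    have e : (2 : ℕ) ^ (j + 1) = 2 * 2 ^ j := by ring
    have key : ∑ l ∈ Finset.range (2 ^ j), (a (2 * (L * 2 ^ j + l) + 1) + 2) ≤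
        ∑ l ∈ Finset.range (2 ^ (j + 1)), a (2 * (L * 2 ^ (j + 1) + l) + 1) := by
      rw [show Finset.range (2 ^ (j + 1)) = Finset.range (2 * 2 ^ j) by rw [e], sum_split]
      apply Finset.sum_le_sum
      intro l _
      have hp := pair_ge h (L * 2 ^ j + l)
      rw [show 2 * (L * 2 ^ (j + 1) + 2 * l) + 1 = 4 * (L * 2 ^ j + l) + 1 by ring,
        show 2 * (L * 2 ^ (j + 1) + (2 * l + 1)) + 1 = 4 * (L * 2 ^ j + l) + 3 by ring]
      exact hp
    rw [Finset.sum_add_distrib, Finset.sum_const, Finset.card_range, smul_eq_mul] at key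
    rw [pow_succ 2 (j + 1)]
    omega

theorem T_gen {a : ℕ → ℕ} (h : Rec a) {L : ℕ} (hL : 1 ≤ L) :
    ∀ j, 2 ^ (j + 1) ≤ (∑ l ∈ Finset.range (2 ^ j), a (L * 2 ^ j + l)) + (j + 1) := by
  intro j
  induction j with
  | zero => have := h.pos L hL; simp; omega
  | succ j ih =>
    have e : (2 : ℕ) ^ (j + 1) = 2 * 2 ^ j := by ring
    have key : ∑ l ∈ Finset.range (2 ^ (j + 1)), a (L * 2 ^ (j + 1) + l) =
        (∑ l ∈ Finset.range (2 ^ j), a (L * 2 ^ j + l)) +
        ∑ l ∈ Finset.range (2 ^ j), a (2 * (L * 2 ^ j + l) + 1) := by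
      rw [show Finset.range (2 ^ (j + 1)) = Finset.range (2 * 2 ^ j) by rw [e], sum_split,
        ← Finset.sum_add_distrib]
      apply Finset.sum_congr rfl
      intro l _
      have hp : 1 ≤ L * 2 ^ j := Nat.mul_pos hL (by positivity)
      rw [show L * 2 ^ (j + 1) + 2 * l = 2 * (L * 2 ^ j + l) by ring, h.dbl _ (by omega),
        show L * 2 ^ (j + 1) + (2 * l + 1) = 2 * (L * 2 ^ j + l) + 1 by ring]
    have hF := F_gen h L j
    rw [key, pow_succ 2 (j + 1)]
    omega

/-- `a (v * 2 ^ j - 1) ≤ C * 2 ^ (j - J)` for all `j ≥ J`. -/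
def Bd (a : ℕ → ℕ) (v J C : ℕ) : Prop := ∀ m, a (v * 2 ^ (J + m) - 1) ≤ C * 2 ^ m

theorem Bd.down {a : ℕ → ℕ} {v J C : ℕ} (i : ℕ) (hb : Bd a v (J + i) C) : Bd a (v * 2 ^ i) J C := by
  intro m
  have := hb m
  rwa [show v * 2 ^ i * 2 ^ (J + m) = v * 2 ^ (J + i + m) by ring]

/-- Propagation of a bound across the block below `L`. -/
theorem block {a : ℕ → ℕ} (h : Rec a) {L J C M : ℕ} (hL : 1 ≤ L) (hC : Bd a L (J + 1) C)
    (hCM : C ≤ M) (hrow : ∀ s, s < 2 ^ (J + 1) → a (L * 2 ^ (J + 1) + s) ≤ M)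
    (hrow1 : ∀ s, s < 2 ^ J → 2 * a (L * 2 ^ J + s) ≤ M)
    (hend : 2 * a ((L + 1) * 2 ^ (J + 1) - 1) ≤ M)
    (h5 : 2 * C + J + 2 ≤ M + 2 ^ (J + 2)) : Bd a (L + 1) (J + 1) ((M + 1) / 2) := by
  have hLp : ∀ k, 1 ≤ L * 2 ^ k := fun k => Nat.mul_pos hL (by positivity)
  have R1 : ∀ m s, s < 2 ^ (J + 1 + m) → a (L * 2 ^ (J + 1 + m) + s) ≤ M * 2 ^ m := by
    intro m
    induction m with
    | zero => intro s hs; simpa using hrow s hs
    | succ m ih =>
      have hCm := hC (m + 1)
      have hodd : ∀ t, t < 2 ^ (J + 1 + m) →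
          a (L * 2 ^ (J + 1 + m + 1) + (2 * t + 1)) ≤ M * 2 ^ (m + 1) := by
        intro t
        induction t with
        | zero =>
          intro ht
          have i2 := ih 0 ht
          obtain ⟨c, hc⟩ : ∃ c, L * 2 ^ (J + 1 + m) = c + 1 :=
            ⟨L * 2 ^ (J + 1 + m) - 1, by have := hLp (J + 1 + m); omega⟩
          have e1 : L * 2 ^ (J + 1 + m + 1) = 2 * (c + 1) := by rw [← hc]; ring
          rw [show J + 1 + (m + 1) = J + 1 + m + 1 by ring, e1,
            show 2 * (c + 1) - 1 = 2 * c + 1 by omega] at hCm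
          rw [e1, show 2 * (c + 1) + (2 * 0 + 1) = 2 * c + 3 by ring]
          rw [hc, add_zero] at i2
          apply step_le h c _ (hCm.trans (Nat.mul_le_mul_right _ hCM))
          rw [pow_succ]; nlinarith [i2]
        | succ t iht =>
          intro ht
          have i1 := iht (by omega)
          have i2 := ih (t + 1) ht
          have e1 : L * 2 ^ (J + 1 + m + 1) + (2 * t + 1) =
            2 * (L * 2 ^ (J + 1 + m) + t) + 1 := by ring
          have e2 : L * 2 ^ (J + 1 + m + 1) + (2 * (t + 1) + 1) =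
            2 * (L * 2 ^ (J + 1 + m) + t) + 3 := by ring
          rw [e1] at i1
          rw [e2]
          apply step_le h _ _ i1
          have i3 : a (L * 2 ^ (J + 1 + m) + t + 1) ≤ M * 2 ^ m := i2
          rw [pow_succ]; nlinarith [i3]
      intro s hs
      rcases Nat.even_or_odd' s with ⟨t, rfl | rfl⟩
      · have ht : t < 2 ^ (J + 1 + m) := by
          rw [show J + 1 + (m + 1) = (J + 1 + m) + 1 by ring, pow_succ] at hs; omega
        have := hLp (J + 1 + m)
        rw [show L * 2 ^ (J + 1 + (m + 1)) + 2 * t = 2 * (L * 2 ^ (J + 1 + m) + t) by ring,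
          h.dbl _ (by omega)]
        have i1 := ih t ht
        have : M * 2 ^ m ≤ M * 2 ^ (m + 1) :=
          Nat.mul_le_mul_left _ (Nat.pow_le_pow_right (by norm_num) (by omega))
        omega
      · have ht : t < 2 ^ (J + 1 + m) := by
          rw [show J + 1 + (m + 1) = (J + 1 + m) + 1 by ring, pow_succ] at hs; omega
        exact hodd t ht
  have R2 : ∀ m s, s < 2 ^ (J + m) → 2 * a (L * 2 ^ (J + m) + s) ≤ M * 2 ^ m := by
    intro m
    cases m with
    | zero => intro s hs; simpa using hrow1 s hs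
    | succ m =>
      intro s hs
      have := R1 m s (by rwa [show J + 1 + m = J + (m + 1) by ring])
      rw [show J + 1 + m = J + (m + 1) by ring] at this
      rw [pow_succ]
      nlinarith [this]
  have main : ∀ m, 2 * a ((L + 1) * 2 ^ (J + 1 + m) - 1) ≤ M * 2 ^ m := by
    intro m
    induction m with
    | zero => simpa using hend
    | succ m ih =>
      obtain ⟨c, hc⟩ : ∃ c, L * 2 ^ (J + m) = c + 1 :=
        ⟨L * 2 ^ (J + m) - 1, by have := hLp (J + m); omega⟩
      have hc1 : L * 2 ^ (J + 1 + m) = 2 * (c + 1) := by rw [← hc]; ring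
      have hc2 : L * 2 ^ (J + 1 + (m + 1)) = 4 * (c + 1) := by rw [← hc]; ring
      have hU := hC (m + 1)
      rw [hc2, show 4 * (c + 1) - 1 = 4 * c + 3 by omega] at hU
      have hy0 := hC m
      rw [hc1, show 2 * (c + 1) - 1 = 2 * c + 1 by omega] at hy0
      have hp : ∀ r, r < 2 ^ (J + m) → 2 * a (c + r + 1) ≤ M * 2 ^ m := by
        intro r hr
        have := R2 m r hr
        rw [hc] at this
        rwa [show c + r + 1 = c + 1 + r by ring]
      have hy : ∀ r, r < 2 ^ (J + m) → a (2 * (c + r) + 1) ≤ M * 2 ^ m := by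
        intro r hr
        rcases Nat.eq_zero_or_pos r with rfl | hr0
        · have := Nat.mul_le_mul_right (2 ^ m) hCM
          simpa using hy0.trans this
        · have := R1 m (2 * r - 1) (by
            rw [show J + 1 + m = (J + m) + 1 by ring, pow_succ]; omega)
          rw [hc1] at this
          rwa [show 2 * (c + r) + 1 = 2 * (c + 1) + (2 * r - 1) by omega]
      have fin := walk h c (2 ^ (J + m)) (M * 2 ^ m) hp hy (2 ^ (J + m)) le_rfl
      have e1 : (L + 1) * 2 ^ (J + 1 + (m + 1)) - 1 = 4 * (c + 2 ^ (J + m)) + 3 := by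
        have : (L + 1) * 2 ^ (J + 1 + (m + 1)) =
          L * 2 ^ (J + 1 + (m + 1)) + 4 * 2 ^ (J + m) := by ring
        rw [this, hc2]; omega
      have e2 : (L + 1) * 2 ^ (J + 1 + m) - 1 = 2 * (c + 2 ^ (J + m)) + 1 := by
        have : (L + 1) * 2 ^ (J + 1 + m) = L * 2 ^ (J + 1 + m) + 2 * 2 ^ (J + m) := by ring
        rw [this, hc1]; omega
      rw [e2] at ih
      rw [e1, pow_succ]
      suffices hs : a (4 * (c + 2 ^ (J + m)) + 3) ≤ M * 2 ^ m by nlinarith [hs]
      rcases fin with fin | fin | fin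
      · exact fin
      · omega
      · have hS : 2 ^ (J + m + 1) + 2 ^ (J + m + 1) ≤ (∑ l ∈ Finset.range (2 ^ (J + m)),
            (a (c + l + 1) + a (2 * (c + l) + 3))) + (J + m + 2) := by
          rw [Finset.sum_add_distrib]
          have hT := T_gen h hL (J + m)
          have hF := F_gen h L (J + m)
          rw [hc] at hT hF
          have f1 : ∑ l ∈ Finset.range (2 ^ (J + m)), a (c + 1 + l) =
              ∑ l ∈ Finset.range (2 ^ (J + m)), a (c + l + 1) := by
            apply Finset.sum_congr rfl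
            intro l _
            rw [show c + 1 + l = c + l + 1 by ring]
          have f2 : ∑ l ∈ Finset.range (2 ^ (J + m)), a (2 * (c + 1 + l) + 1) =
              ∑ l ∈ Finset.range (2 ^ (J + m)), a (2 * (c + l) + 3) := by
            apply Finset.sum_congr rfl
            intro l _
            rw [show 2 * (c + 1 + l) + 1 = 2 * (c + l) + 3 by ring]
          rw [f1] at hT
          rw [f2] at hF
          omega
        -- compare the powers
        have g1 : (2 : ℕ) ^ (J + m + 1) + 2 ^ (J + m + 1) = 2 ^ (J + 2) * 2 ^ m := by ring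
        have g2 : (2 * C + J + 2) * 2 ^ m ≤ (M + 2 ^ (J + 2)) * 2 ^ m :=
          Nat.mul_le_mul_right _ h5
        have g3 : m + 1 ≤ 2 ^ m := Nat.succ_le_of_lt Nat.lt_two_pow_self
        have g4 : C * 2 ^ (m + 1) = 2 * (C * 2 ^ m) := by ring
        have g5 : (2 * C + J + 2) * 2 ^ m = 2 * (C * 2 ^ m) + J * 2 ^ m + 2 * 2 ^ m := by ring
        have g6 : (M + 2 ^ (J + 2)) * 2 ^ m = M * 2 ^ m + 2 ^ (J + 2) * 2 ^ m := by ring
        have g7 : J ≤ J * 2 ^ m := Nat.le_mul_of_pos_right J (by positivity)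
        rw [g5, g6] at g2
        rw [g4] at hU
        rw [g1] at hS
        omega
  intro m
  have := main m
  have e : M ≤ 2 * ((M + 1) / 2) := by omega
  have e2 : M * 2 ^ m ≤ 2 * ((M + 1) / 2) * 2 ^ m := Nat.mul_le_mul_right _ e
  have e3 : 2 * ((M + 1) / 2) * 2 ^ m = 2 * ((M + 1) / 2 * 2 ^ m) := by ring
  omega

/-- `m` occurs in the sequence. -/
def IsTerm (a : ℕ → ℕ) (m : ℕ) : Prop := ∃ n, 1 ≤ n ∧ a n = m

theorem term_mul {a : ℕ → ℕ} (q c : ℕ)
    (hs : ∀ k s, 1 ≤ s → s < 2 ^ k → a (q * 2 ^ k + s) = c * a s) {m : ℕ} (hm : IsTerm a m) :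
    IsTerm a (c * m) := by
  obtain ⟨n, hn, rfl⟩ := hm
  exact ⟨q * 2 ^ n + n, by omega, hs n n hn Nat.lt_two_pow_self⟩

theorem start_value {a : ℕ → ℕ} (h : Rec a) (k : ℕ) (h2 : 1 < a (2 ^ (k + 1) - 1)) :
    a (2 ^ (k + 1) + 1) = a (2 ^ (k + 1) - 1) - 1 := by
  have hp : 1 ≤ 2 ^ k := Nat.one_le_two_pow
  obtain ⟨c, hc⟩ : ∃ c, 2 ^ k = c + 1 := ⟨2 ^ k - 1, by omega⟩
  have h1 : a (2 ^ k) = 1 := by have := pow_dbl h 1 le_rfl k; simpa [h.one] using this
  rw [pow_succ, hc] at h2 ⊢
  rw [hc] at h1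
  rw [show (c + 1) * 2 - 1 = 2 * c + 1 by omega] at h2 ⊢
  rw [show (c + 1) * 2 + 1 = 2 * c + 3 by ring]
  have := h.lo c (by omega)
  omega

end Pool.Agent.HalfDiff
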