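import Pool.Agent.HalfDiff.SD.CertB
import Pool.Agent.HalfDiff.SD.CertC
import Pool.Agent.HalfDiff.SD.CertD
import Pool.Agent.HalfDiff.SD.CertE
import Pool.Agent.HalfDiff.SD.CertF

namespace Pool.Agent.HalfDiff.Dil

open Pool.Agent.HalfDiff.SD

theorem good_of {a : ℕ → ℕ} (h1 : a 1 = 1) (he : ∀ n, 1 ≤ n → a (2 * n) = a n)
    (ho : ∀ n, 1 ≤ n → IsLeast {x : ℕ | 0 < x ∧ |(x : ℤ) - (a (2 * n - 1) : ℤ)| = (a n : ℤ)}
      (a (2 * n + 1))) : Good a := by
  refine ⟨h1, he, fun n hn => ?_⟩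
  obtain ⟨⟨hpos, habs⟩, hmin⟩ := ho n hn
  rcases Nat.lt_or_ge (a n) (a (2 * n - 1)) with h | h
  · rw [stp_gt h]
    have hle : a (2 * n + 1) ≤ a (2 * n - 1) - a n := by
      apply hmin
      refine ⟨by omega, ?_⟩
      rw [Nat.cast_sub h.le]
      have : ((a (2 * n - 1) : ℤ) - (a n : ℤ)) - (a (2 * n - 1) : ℤ) = -(a n : ℤ) := by ring
      rw [this, abs_neg, abs_of_nonneg (by positivity)]
    rcases abs_eq (by positivity : (0 : ℤ) ≤ (a n : ℤ)) |>.mp habs with h' | h'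
    · omega
    · omega
  · rw [stp_le h]
    rcases abs_eq (by positivity : (0 : ℤ) ≤ (a n : ℤ)) |>.mp habs with h' | h'
    · omega
    · omega

theorem prime_mult {a : ℕ → ℕ} (G : Good a) (q : ℕ) (hq : q.Prime) (h2 : q ≠ 2)
    (h43 : q ≤ 43) : ∃ c, Law a c q := by
  interval_cases q <;>
    first
    | exact ⟨3, law_three G⟩
    | exact mult_5_1_1 G
    | exact mult_7_1_1 G
    | exact mult_11_1_5 G
    | exact mult_13_5_3 G
    | exact mult_17_11_7 G
    | exact mult_19_11_3 G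
    | exact mult_23_7_5 G
    | exact mult_29_11_5 G
    | exact mult_31_1_7 G
    | exact mult_37_11_3 G
    | exact mult_41_11_5 G
    | exact mult_43_23_3 G
    | exact absurd rfl h2
    | (exfalso; revert hq; norm_num)

theorem smooth_mult {a : ℕ → ℕ} (G : Good a) (s : ℕ) : Odd s →
    (∀ q : ℕ, q.Prime → q ∣ s → q ≤ 43) → ∃ c, Law a c s := by
  induction s using induction_on_primes with
  | zero => intro h; exact absurd h (by decide)
  | one => intro _ _; exact ⟨0, fun k i _ _ => by rw [Nat.zero_mul, Nat.zero_add, Nat.one_mul]⟩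
  | prime_mul p s hp ih =>
    intro hodd hq
    have hps := Nat.odd_mul.mp hodd
    obtain ⟨c, hc⟩ := prime_mult G p hp (by
      rintro rfl
      exact absurd hps.1 (by decide)) (hq p hp (dvd_mul_right p s))
    obtain ⟨d, hd⟩ := ih hps.2 (fun q hq' hd => hq q hq' (Dvd.dvd.mul_left hd p))
    exact Law.comp hc hd

theorem closed_mult {a : ℕ → ℕ} {c s : ℕ} (hc : Law a c s) {m : ℕ}
    (h : ∃ n, 1 ≤ n ∧ a n = m) : ∃ n, 1 ≤ n ∧ a n = s * m := by
  obtain ⟨n, hn, rfl⟩ := h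
  exact ⟨c * 2 ^ n + n, by omega, hc n n hn Nat.lt_two_pow_self⟩

theorem pow_two_value {a : ℕ → ℕ} (G : Good a) (k : ℕ) (hk : k < 18) :
    ∃ n, 1 ≤ n ∧ a n = 2 ^ k := by
  interval_cases k
  · exact ⟨1, le_refl 1, G.one⟩
  · exact ⟨3, by norm_num, a_three G⟩
  · exact pow_2 G
  · exact pow_3 G
  · exact pow_4 G
  · exact pow_5 G
  · exact pow_6 G
  · exact pow_7 G
  · exact pow_8 G
  · exact pow_9 G
  · exact pow_10 G
  · exact pow_11 G
  · exact pow_12 G
  · exact pow_13 G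
  · exact pow_14 G
  · exact pow_15 G
  · exact pow_16 G
  · exact pow_17 G

theorem small_dvd {q : ℕ} (h : q ∈ smallPrimes) : q.Prime ∧ q ≠ 2 ∧ q ≤ 43 := by
  unfold smallPrimes at h
  simp only [List.mem_cons, List.not_mem_nil, or_false] at h
  rcases h with rfl | rfl | rfl | rfl | rfl | rfl | rfl | rfl | rfl | rfl | rfl | rfl | rfl <;>
    norm_num

theorem upto_1000 {a : ℕ → ℕ} (G : Good a) : ∀ r, 1 ≤ r → r ≤ 1000 → ∃ n, 1 ≤ n ∧ a n = r := by
  intro r
  induction r using Nat.strong_induction_on with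
  | _ r ih =>
    intro h1 h2
    have hc := covAll_sound 1000 covAll_ok r h1 h2
    rw [cov, Bool.or_eq_true] at hc
    rcases hc with hc | hc
    · obtain ⟨q, hq, hb⟩ := List.any_eq_true.mp hc
      have hd : q ∣ r := Nat.dvd_of_mod_eq_zero (Nat.eq_of_beq_eq_true hb)
      obtain ⟨hp, hq2, hq43⟩ := small_dvd hq
      obtain ⟨r', rfl⟩ := hd
      have hr' : 1 ≤ r' := by
        rcases Nat.eq_zero_or_pos r' with h | h
        · rw [h, Nat.mul_zero] at h1; omega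
        · exact h
      have hlt : r' < q * r' := by
        have := Nat.mul_le_mul_right r' hp.two_le
        omega
      obtain ⟨c, hc⟩ := prime_mult G q hp hq2 hq43
      exact closed_mult hc (ih r' hlt hr' (by omega))
    · obtain ⟨x, hx, hb⟩ := List.any_eq_true.mp hc
      have hrx : r = x := Nat.eq_of_beq_eq_true hb
      rw [hrx]
      exact allr_value G hx

theorem reduce {a : ℕ → ℕ} (G : Good a)
    (h : ∀ m : ℕ, 1 ≤ m → (∀ q : ℕ, q.Prime → q ∣ m → q = 2 ∨ 43 < q) → ∃ n, 1 ≤ n ∧ a n = m) :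
    ∀ m : ℕ, 1 ≤ m → ∃ n, 1 ≤ n ∧ a n = m := by
  intro m
  induction m using Nat.strong_induction_on with
  | _ m ih =>
    intro h1
    by_cases hq : ∀ q : ℕ, q.Prime → q ∣ m → q = 2 ∨ 43 < q
    · exact h m h1 hq
    · push Not at hq
      obtain ⟨q, hp, ⟨r, rfl⟩, hq2, hq43⟩ := hq
      have hr : 1 ≤ r := by
        rcases Nat.eq_zero_or_pos r with h' | h'
        · rw [h', Nat.mul_zero] at h1; omega
        · exact h'
      have hlt : r < q * r := by
        have := Nat.mul_le_mul_right r hp.two_le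
        omega
      obtain ⟨c, hc⟩ := prime_mult G q hp hq2 hq43
      exact closed_mult hc (ih r hlt hr)

/-- Let `a` be the sequence `a 1 = 1`, `a (2 n) = a n`, `a (2 n + 1)` the least positive `x` with
`|x - a (2 n - 1)| = a n`. For every odd `s` without prime factor above `43` there is a `c`
with `a (c 2 ^ k + i) = s a i` for all `k` and `1 ≤ i < 2 ^ k`, so the set of values of `a` is
closed under multiplication by `s`. Hence every `s r`, with such an `s` and with `1 ≤ r ≤ 1000`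
or `r = 2 ^ e`, `e < 18`, is a value, and every positive integer is a value as soon as
those without odd prime factor below `44` are. -/
theorem result (a : ℕ → ℕ) (h1 : a 1 = 1) (he : ∀ n, 1 ≤ n → a (2 * n) = a n)
    (ho : ∀ n, 1 ≤ n → IsLeast {x : ℕ | 0 < x ∧ |(x : ℤ) - (a (2 * n - 1) : ℤ)| = (a n : ℤ)}
      (a (2 * n + 1))) :
    (∀ s : ℕ, Odd s → (∀ q : ℕ, q.Prime → q ∣ s → q ≤ 43) →
      (∃ c : ℕ, ∀ k i : ℕ, 1 ≤ i → i < 2 ^ k → a (c * 2 ^ k + i) = s * a i) ∧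
      (∀ m : ℕ, (∃ n, 1 ≤ n ∧ a n = m) → ∃ n, 1 ≤ n ∧ a n = s * m) ∧
      ∀ r : ℕ, (1 ≤ r ∧ r ≤ 1000) ∨ (∃ e, e < 18 ∧ r = 2 ^ e) → ∃ n, 1 ≤ n ∧ a n = s * r) ∧
    ((∀ m : ℕ, 1 ≤ m → (∀ q : ℕ, q.Prime → q ∣ m → q = 2 ∨ 43 < q) → ∃ n, 1 ≤ n ∧ a n = m) →
      ∀ m : ℕ, 1 ≤ m → ∃ n, 1 ≤ n ∧ a n = m) := by
  have G := good_of h1 he ho
  refine ⟨fun s hs hp => ?_, fun h => reduce G h⟩
  obtain ⟨c, hc⟩ := smooth_mult G s hs hp
  refine ⟨⟨c, hc⟩, fun m h => closed_mult hc h, fun r hr => closed_mult hc ?_⟩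
  rcases hr with ⟨hr1, hr2⟩ | ⟨e, he', rfl⟩
  · exact upto_1000 G r hr1 hr2
  · exact pow_two_value G e he'

end Pool.Agent.HalfDiff.Dil
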