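import Pool.Agent.HalfDiff.Core

/-!
# Terms shortly after powers of two

Symbolic rows: a pair `(A, B)` stands for the integer `A * x + B`, where `x` is a large power of
three.
-/

namespace Pool.Agent.HalfDiff

/-- `p` is smaller than `z` for all `x ≥ x0`. -/
def sLt (x0 : ℤ) (p z : ℤ × ℤ) : Bool :=
  (decide (p.1 < z.1) && decide (p.2 - z.2 < (z.1 - p.1) * x0)) ||
    (decide (p.1 = z.1) && decide (p.2 < z.2))

/-- `z` is at most `p` for all `x ≥ x0`. -/
def sLe (x0 : ℤ) (z p : ℤ × ℤ) : Bool :=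
  decide (z.1 ≤ p.1) && decide (z.2 - p.2 ≤ (p.1 - z.1) * x0)

theorem sLt_sound {x0 x : ℤ} (hx : x0 ≤ x) {p z : ℤ × ℤ} (h : sLt x0 p z = true) :
    p.1 * x + p.2 < z.1 * x + z.2 := by
  simp only [sLt, Bool.or_eq_true, Bool.and_eq_true, decide_eq_true_eq] at h
  rcases h with ⟨h1, h2⟩ | ⟨h1, h2⟩
  · have : (z.1 - p.1) * x0 ≤ (z.1 - p.1) * x := mul_le_mul_of_nonneg_left hx (by omega)
    nlinarith
  · rw [h1]; omega

theorem sLe_sound {x0 x : ℤ} (hx : x0 ≤ x) {z p : ℤ × ℤ} (h : sLe x0 z p = true) :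
    z.1 * x + z.2 ≤ p.1 * x + p.2 := by
  simp only [sLe, Bool.and_eq_true, decide_eq_true_eq] at h
  obtain ⟨h1, h2⟩ := h
  have : (p.1 - z.1) * x0 ≤ (p.1 - z.1) * x := mul_le_mul_of_nonneg_left hx (by omega)
  nlinarith

/-- From the symbolic row starting at `N` to the one starting at `2 N`; the empty list is the
failure value. -/
def sNext (x0 : ℤ) : ℤ × ℤ → List (ℤ × ℤ) → List (ℤ × ℤ)
  | _, [] => []
  | z, p :: ps =>
    if sLt x0 p z then p :: (z.1 - p.1, z.2 - p.2) :: sNext x0 (z.1 - p.1, z.2 - p.2) ps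
    else if sLe x0 z p then p :: (z.1 + p.1, z.2 + p.2) :: sNext x0 (z.1 + p.1, z.2 + p.2) ps
    else []

/-- The terms with indices `N, N + 1, …` are the members of the symbolic list. -/
def SHolds (a : ℕ → ℕ) (x : ℤ) : ℕ → List (ℤ × ℤ) → Prop
  | _, [] => True
  | N, p :: ps => (a N : ℤ) = p.1 * x + p.2 ∧ SHolds a x (N + 1) ps

theorem sHolds_next {a : ℕ → ℕ} (h : Rec a) {x0 x : ℤ} (hx : x0 ≤ x) :
    ∀ (l : List (ℤ × ℤ)) (N : ℕ) (z : ℤ × ℤ), 1 ≤ N →
    (a (2 * N - 1) : ℤ) = z.1 * x + z.2 → SHolds a x N l → SHolds a x (2 * N) (sNext x0 z l) := by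
  intro l
  induction l with
  | nil => intros; trivial
  | cons p ps ih =>
    intro N z hN hz hH
    obtain ⟨h1, h2⟩ := hH
    obtain ⟨m, rfl⟩ : ∃ m, N = m + 1 := ⟨N - 1, by omega⟩
    rw [show 2 * (m + 1) - 1 = 2 * m + 1 by omega] at hz
    rw [sNext]
    split_ifs with c1 c2
    · have hlt := sLt_sound hx c1
      have h3 := h.lo m (by rw [← h1, ← hz] at hlt; exact_mod_cast hlt)
      have h4 : (a (2 * m + 3) : ℤ) = (z.1 - p.1) * x + (z.2 - p.2) := by
        have : (a (2 * m + 3) : ℤ) + a (m + 1) = a (2 * m + 1) := by exact_mod_cast h3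
        linarith
      refine ⟨by rw [h.dbl _ (by omega), h1], ?_, ?_⟩
      · rw [show 2 * (m + 1) + 1 = 2 * m + 3 by ring]; exact h4
      · have := ih (m + 1 + 1) (z.1 - p.1, z.2 - p.2) (by omega) (by
          rw [show 2 * (m + 1 + 1) - 1 = 2 * m + 3 by omega]; exact h4) h2
        rw [show 2 * (m + 1 + 1) = 2 * (m + 1) + 1 + 1 by ring] at this
        exact this
    · have hle := sLe_sound hx c2
      have h3 := h.hi m (by rw [← h1, ← hz] at hle; exact_mod_cast hle)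
      have h4 : (a (2 * m + 3) : ℤ) = (z.1 + p.1) * x + (z.2 + p.2) := by
        have : (a (2 * m + 3) : ℤ) = a (2 * m + 1) + a (m + 1) := by exact_mod_cast h3
        linarith
      refine ⟨by rw [h.dbl _ (by omega), h1], ?_, ?_⟩
      · rw [show 2 * (m + 1) + 1 = 2 * m + 3 by ring]; exact h4
      · have := ih (m + 1 + 1) (z.1 + p.1, z.2 + p.2) (by omega) (by
          rw [show 2 * (m + 1 + 1) - 1 = 2 * m + 3 by omega]; exact h4) h2
        rw [show 2 * (m + 1 + 1) = 2 * (m + 1) + 1 + 1 by ring] at this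
        exact this
    · trivial

theorem sHolds_get {a : ℕ → ℕ} {x : ℤ} : ∀ (l : List (ℤ × ℤ)) (N i : ℕ) (p : ℤ × ℤ),
    SHolds a x N l → l[i]? = some p → (a (N + i) : ℤ) = p.1 * x + p.2 := by
  intro l
  induction l with
  | nil => intro N i p _ h0; simp at h0
  | cons y ys ih =>
    intro N i p hH h0
    cases i with
    | zero => simp at h0; subst h0; exact hH.1
    | succ i =>
      have := ih (N + 1) i p hH.2 (by simpa using h0)
      rw [show N + (i + 1) = N + 1 + i by ring]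
      exact this

/-- The symbolic row at the sixth level after an odd power of two. -/
def far6 : List (ℤ × ℤ) :=
  sNext 27 (27, 0) (sNext 27 (18, 0) (sNext 27 (9, 0) (sNext 27 (6, 0) (sNext 27 (3, 0)
    (sNext 27 (2, 0) [(0, 1)])))))

theorem far6_get : far6[37]? = some (1, 5) := by decide +kernel

theorem far_value {a : ℕ → ℕ} (h : Rec a) (j : ℕ) (hj : 3 ≤ j) :
    a (2 ^ (2 * j + 7) + 37) = 3 ^ j + 5 := by
  have hx : (27 : ℤ) ≤ 3 ^ j := by
    calc (27 : ℤ) = 3 ^ 3 := by norm_num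
      _ ≤ 3 ^ j := pow_le_pow_right₀ (by norm_num) hj
  have e0 := end_values h j
  have e1 := end_values h (j + 1)
  have e2 := end_values h (j + 2)
  have e3 := end_values h (j + 3)
  have step : ∀ (K : ℕ) (z : ℤ) (l : List (ℤ × ℤ)), (a (2 ^ (K + 1) - 1) : ℤ) = z * 3 ^ j →
      SHolds a (3 ^ j) (2 ^ K) l → SHolds a (3 ^ j) (2 ^ (K + 1)) (sNext 27 (z, 0) l) := by
    intro K z l hz hl
    have := sHolds_next h hx l (2 ^ K) (z, 0) Nat.one_le_two_pow (by
      rw [← pow_succ', hz]; ring) hl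
    rwa [← pow_succ'] at this
  have r0 : SHolds a (3 ^ j) (2 ^ (2 * j + 1)) [(0, 1)] := by
    refine ⟨?_, trivial⟩
    have := pow_dbl h 1 le_rfl (2 * j + 1)
    rw [one_mul] at this
    rw [this, h.one]; simp
  have r1 := step _ 2 _ (by
    rw [show 2 * j + 1 + 1 = 2 * j + 2 by ring, e0.2]; push_cast; ring) r0
  have r2 := step _ 3 _ (by
    rw [show 2 * j + 1 + 1 + 1 = 2 * (j + 1) + 1 by ring, e1.1]; push_cast; ring) r1
  have r3 := step _ 6 _ (by
    rw [show 2 * j + 1 + 1 + 1 + 1 = 2 * (j + 1) + 2 by ring, e1.2]; push_cast; ring) r2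
  have r4 := step _ 9 _ (by
    rw [show 2 * j + 1 + 1 + 1 + 1 + 1 = 2 * (j + 2) + 1 by ring, e2.1]; push_cast; ring) r3
  have r5 := step _ 18 _ (by
    rw [show 2 * j + 1 + 1 + 1 + 1 + 1 + 1 = 2 * (j + 2) + 2 by ring, e2.2]; push_cast; ring) r4
  have r6 := step _ 27 _ (by
    rw [show 2 * j + 1 + 1 + 1 + 1 + 1 + 1 + 1 = 2 * (j + 3) + 1 by ring, e3.1]; push_cast
    ring) r5
  have : (a (2 ^ (2 * j + 1 + 1 + 1 + 1 + 1 + 1 + 1) + 37) : ℤ) = (1 : ℤ) * 3 ^ j + 5 :=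
    sHolds_get _ _ 37 (1, 5) r6 far6_get
  rw [show 2 * j + 1 + 1 + 1 + 1 + 1 + 1 + 1 = 2 * j + 7 by ring, one_mul] at this
  exact_mod_cast this

end Pool.Agent.HalfDiff
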