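import Mathlib

/-!
# Multiplicative density of a two-generated semigroup of integers
-/

namespace Pool.Agent.HalfDiff

theorem gap_core {u v d : ℝ} (hv : 0 < v) (hd : 0 < d) (P Q : ℕ)
    (h : d + P * u = Q * v) :
    ∃ Y : ℝ, ∀ y ≥ Y, ∃ i j : ℕ, y ≤ i * u + j * v ∧ i * u + j * v ≤ y + d := by
  obtain ⟨K, hK⟩ : ∃ K : ℕ, v ≤ K * d := by
    obtain ⟨K, hK⟩ := exists_nat_ge (v / d)
    exact ⟨K, by rwa [div_le_iff₀ hd] at hK⟩
  refine ⟨K * P * u, ?_⟩
  intro y hy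
  obtain ⟨z, hz⟩ : ∃ z, z = y - K * P * u := ⟨_, rfl⟩
  have hz0 : 0 ≤ z := by rw [hz]; linarith
  obtain ⟨n, hn⟩ : ∃ n : ℕ, n = ⌊z / v⌋₊ := ⟨_, rfl⟩
  have hn1 : n * v ≤ z := by
    have := Nat.floor_le (div_nonneg hz0 hv.le)
    rw [← hn, le_div_iff₀ hv] at this
    exact this
  have hn2 : z < (n + 1) * v := by
    have := Nat.lt_floor_add_one (z / v)
    rw [← hn, div_lt_iff₀ hv] at this
    exact this
  obtain ⟨w, hw⟩ : ∃ w, w = z - n * v := ⟨_, rfl⟩
  have hw0 : 0 ≤ w := by rw [hw]; linarith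
  have hwv : w < v := by rw [hw]; linarith
  obtain ⟨k, hk⟩ : ∃ k : ℕ, k = ⌈w / d⌉₊ := ⟨_, rfl⟩
  have hk1 : w ≤ k * d := by
    have := Nat.le_ceil (w / d)
    rw [← hk, div_le_iff₀ hd] at this
    exact this
  have hk2 : k * d < w + d := by
    have := Nat.ceil_lt_add_one (div_nonneg hw0 hd.le)
    rw [← hk] at this
    have h2 : (k : ℝ) * d < (w / d + 1) * d := mul_lt_mul_of_pos_right this hd
    rwa [add_mul, div_mul_cancel₀ _ hd.ne', one_mul] at h2
  have hkK : k ≤ K := by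
    rw [hk]
    apply Nat.ceil_le.mpr
    rw [div_le_iff₀ hd]
    linarith
  refine ⟨(K - k) * P, k * Q + n, ?_⟩
  push_cast [Nat.cast_sub hkK]
  have e : ((K : ℝ) - k) * P * u + (k * Q + n) * v = K * P * u + k * d + n * v := by
    have : (k : ℝ) * Q * v = k * (d + P * u) := by rw [h]; ring
    linear_combination this
  rw [e]
  constructor <;> linarith

theorem gap_add {u v : ℝ} (hu : 0 < u) (hv : 0 < v) (hirr : Irrational (u / v)) {δ : ℝ}
    (hδ : 0 < δ) :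
    ∃ Y : ℝ, ∀ y ≥ Y, ∃ i j : ℕ, y ≤ i * u + j * v ∧ i * u + j * v ≤ y + δ := by
  have hdense := dense_addSubgroupClosure_pair_iff.mpr hirr
  have hpos : 0 < min δ (min u v) := lt_min hδ (lt_min hu hv)
  obtain ⟨d, hdm, hd1⟩ := hdense.exists_mem_open isOpen_Ioo (Set.nonempty_Ioo.mpr hpos)
  obtain ⟨hd0, hd2⟩ := hd1
  have hdδ : d < δ := hd2.trans_le (min_le_left _ _)
  have hdu : d < u := hd2.trans_le ((min_le_right _ _).trans (min_le_left _ _))
  rw [SetLike.mem_coe, AddSubgroup.mem_closure_pair] at hdm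
  obtain ⟨p, q, hpq⟩ := hdm
  simp only [zsmul_eq_mul] at hpq
  rcases le_or_gt p 0 with hp | hp
  · -- `d + P u = q v`
    have hq : 0 < q := by
      by_contra hq
      have h1 : (p : ℝ) * u ≤ 0 := mul_nonpos_of_nonpos_of_nonneg (by exact_mod_cast hp) hu.le
      have h2 : (q : ℝ) * v ≤ 0 :=
        mul_nonpos_of_nonpos_of_nonneg (by exact_mod_cast not_lt.mp hq) hv.le
      linarith
    obtain ⟨P, hP⟩ := Int.eq_ofNat_of_zero_le (neg_nonneg.mpr hp)
    obtain ⟨Q, hQ⟩ := Int.eq_ofNat_of_zero_le hq.le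
    have hPr : (p : ℝ) = -(P : ℝ) := by
      have : p = -(P : ℤ) := by omega
      rw [this]; push_cast; rfl
    have hQr : (q : ℝ) = (Q : ℝ) := by rw [hQ]; rfl
    obtain ⟨Y, hY⟩ := gap_core (u := u) hv hd0 P Q (by rw [← hpq, hPr, hQr]; ring)
    refine ⟨Y, fun y hy => ?_⟩
    obtain ⟨i, j, h1, h2⟩ := hY y hy
    exact ⟨i, j, h1, by linarith⟩
  · have hq : q ≤ 0 := by
      by_contra hq
      have h1 : (1 : ℝ) * u ≤ (p : ℝ) * u :=
        mul_le_mul_of_nonneg_right (by exact_mod_cast hp) hu.le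
      have h2 : 0 ≤ (q : ℝ) * v :=
        mul_nonneg (by exact_mod_cast (not_le.mp hq).le) hv.le
      linarith
    obtain ⟨Q, hQ⟩ := Int.eq_ofNat_of_zero_le (neg_nonneg.mpr hq)
    obtain ⟨P, hP⟩ := Int.eq_ofNat_of_zero_le hp.le
    have hQr : (q : ℝ) = -(Q : ℝ) := by
      have : q = -(Q : ℤ) := by omega
      rw [this]; push_cast; rfl
    have hPr : (p : ℝ) = (P : ℝ) := by rw [hP]; rfl
    obtain ⟨Y, hY⟩ := gap_core (u := v) hu hd0 Q P (by rw [← hpq, hPr, hQr]; ring)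
    refine ⟨Y, fun y hy => ?_⟩
    obtain ⟨i, j, h1, h2⟩ := hY y hy
    exact ⟨j, i, by linarith, by linarith⟩

theorem log_irr {α β : ℕ} (hα : 1 < α) (hβ : 1 < β)
    (h : ∀ i j : ℕ, α ^ i = β ^ j → i = 0) : Irrational (Real.log α / Real.log β) := by
  have hla : 0 < Real.log α := Real.log_pos (by exact_mod_cast hα)
  have hlb : 0 < Real.log β := Real.log_pos (by exact_mod_cast hβ)
  rintro ⟨q, hq⟩
  have hq0 : (0 : ℝ) < q := by rw [hq]; exact div_pos hla hlb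
  have hq0' : 0 < q := by exact_mod_cast hq0
  have hnum : 0 < q.num := Rat.num_pos.mpr hq0'
  obtain ⟨P, hP⟩ := Int.eq_ofNat_of_zero_le hnum.le
  have hden : (0 : ℝ) < q.den := by exact_mod_cast q.pos
  have e : (q.den : ℝ) * Real.log α = P * Real.log β := by
    have h1 : Real.log α = q * Real.log β := by
      rw [hq, div_mul_cancel₀ _ hlb.ne']
    have h2 : (q : ℝ) * q.den = P := by
      have h3 : q * q.den = q.num := Rat.mul_den_eq_num q
      have h4 : ((q * q.den : ℚ) : ℝ) = ((q.num : ℚ) : ℝ) := by rw [h3]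
      rw [hP] at h4
      push_cast at h4
      exact h4
    rw [h1, ← h2]; ring
  rw [← Real.log_pow, ← Real.log_pow] at e
  have e2 := Real.log_injOn_pos (Set.mem_Ioi.mpr (by positivity)) (Set.mem_Ioi.mpr (by positivity)) e
  have e3 : α ^ q.den = β ^ P := by exact_mod_cast e2
  exact q.den_ne_zero (h _ _ e3)

theorem gap_mul {α β : ℕ} (hα : 1 < α) (hβ : 1 < β)
    (h : ∀ i j : ℕ, α ^ i = β ^ j → i = 0) {ε : ℝ} (hε : 0 < ε) :
    ∃ X : ℝ, 0 < X ∧ ∀ x ≥ X, ∃ i j : ℕ, x ≤ ((α ^ i * β ^ j : ℕ) : ℝ) ∧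
      ((α ^ i * β ^ j : ℕ) : ℝ) ≤ (1 + ε) * x := by
  have hla : 0 < Real.log α := Real.log_pos (by exact_mod_cast hα)
  have hlb : 0 < Real.log β := Real.log_pos (by exact_mod_cast hβ)
  have hα0 : (0 : ℝ) < α := by exact_mod_cast (by omega : 0 < α)
  have hβ0 : (0 : ℝ) < β := by exact_mod_cast (by omega : 0 < β)
  obtain ⟨Y, hY⟩ := gap_add hla hlb (log_irr hα hβ h) (Real.log_pos (by linarith : 1 < 1 + ε))
  refine ⟨Real.exp Y, Real.exp_pos _, fun x hx => ?_⟩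
  have hx0 : 0 < x := (Real.exp_pos Y).trans_le hx
  obtain ⟨i, j, h1, h2⟩ := hY (Real.log x) ((Real.le_log_iff_exp_le hx0).mpr hx)
  have e : Real.exp (i * Real.log α + j * Real.log β) = ((α ^ i * β ^ j : ℕ) : ℝ) := by
    rw [Real.exp_add, ← Real.log_pow, ← Real.log_pow, Real.exp_log (by positivity),
      Real.exp_log (by positivity)]
    push_cast; ring
  refine ⟨i, j, ?_, ?_⟩
  · rw [← e, ← Real.exp_log hx0]; exact Real.exp_le_exp.mpr h1
  · have h3 := Real.exp_le_exp.mpr h2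
    rw [e, Real.exp_add, Real.exp_log hx0, Real.exp_log (by linarith)] at h3
    linarith

end Pool.Agent.HalfDiff
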