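import Mathlib

/-!
# Products of the primes `17, …, 43` represent all units modulo every number with prime factors at
most `13`
-/

namespace Pool.Agent.HalfDiff

/-- The multiplicative set generated by the primes `17, …, 43`. -/
def G : Submonoid ℕ := Submonoid.closure ({17, 19, 23, 29, 31, 37, 41, 43} : Set ℕ)

theorem G_gen {p : ℕ} (hp : p ∈ ({17, 19, 23, 29, 31, 37, 41, 43} : Set ℕ)) : p ∈ G :=
  Submonoid.subset_closure hp

theorem G_coprime {s : ℕ} (hs : s ∈ G) : Nat.Coprime s 30030 := by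
  induction hs using Submonoid.closure_induction with
  | mem x hx =>
    simp only [Set.mem_insert_iff, Set.mem_singleton_iff] at hx
    rcases hx with rfl | rfl | rfl | rfl | rfl | rfl | rfl | rfl <;> decide
  | one => exact Nat.coprime_one_left _
  | mul x y _ _ hx hy => exact Nat.Coprime.mul_left hx hy

theorem G_prime {s : ℕ} (hs : s ∈ G) : Odd s ∧ ∀ q : ℕ, q.Prime → q ∣ s → q ≤ 43 := by
  induction hs using Submonoid.closure_induction with
  | mem x hx =>
    simp only [Set.mem_insert_iff, Set.mem_singleton_iff] at hx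
    refine ⟨by rcases hx with rfl | rfl | rfl | rfl | rfl | rfl | rfl | rfl <;> decide, ?_⟩
    intro q _ hd
    have : x ≤ 43 ∧ 0 < x := by omega
    exact (Nat.le_of_dvd this.2 hd).trans this.1
  | one => exact ⟨odd_one, fun q hq hd => by
      have := Nat.dvd_one.mp hd
      exact absurd this hq.one_lt.ne'⟩
  | mul x y _ _ hx hy =>
    refine ⟨hx.1.mul hy.1, fun q hq hd => ?_⟩
    rcases (Nat.Prime.dvd_mul hq).mp hd with h | h
    · exact hx.2 q hq h
    · exact hy.2 q hq h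

theorem H4_mem : 457014227671 ∈ G := by
  have : (457014227671 : ℕ) = 17 * 29 ^ 3 * 31 ^ 3 * 37 := by norm_num
  rw [this]
  exact mul_mem (mul_mem (mul_mem (G_gen (by simp)) (pow_mem (G_gen (by simp)) _))
    (pow_mem (G_gen (by simp)) _)) (G_gen (by simp))

theorem H3_mem : 210290081 ∈ G := by
  have : (210290081 : ℕ) = 19 ^ 3 * 23 * 31 * 43 := by norm_num
  rw [this]
  exact mul_mem (mul_mem (mul_mem (pow_mem (G_gen (by simp)) _) (G_gen (by simp)))
    (G_gen (by simp))) (G_gen (by simp))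

theorem H5_mem : 589493236333 ∈ G := by
  have : (589493236333 : ℕ) = 19 ^ 3 * 29 * 41 ^ 3 * 43 := by norm_num
  rw [this]
  exact mul_mem (mul_mem (mul_mem (pow_mem (G_gen (by simp)) _) (G_gen (by simp)))
    (pow_mem (G_gen (by simp)) _)) (G_gen (by simp))

theorem H7_mem : 8395469941 ∈ G := by
  have : (8395469941 : ℕ) = 17 ^ 2 * 19 * 31 ^ 2 * 37 * 43 := by norm_num
  rw [this]
  exact mul_mem (mul_mem (mul_mem (mul_mem (pow_mem (G_gen (by simp)) _) (G_gen (by simp)))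
    (pow_mem (G_gen (by simp)) _)) (G_gen (by simp))) (G_gen (by simp))

theorem H11_mem : 15189721 ∈ G := by
  have : (15189721 : ℕ) = 17 * 19 * 31 * 37 * 41 := by norm_num
  rw [this]
  exact mul_mem (mul_mem (mul_mem (mul_mem (G_gen (by simp)) (G_gen (by simp)))
    (G_gen (by simp))) (G_gen (by simp))) (G_gen (by simp))

theorem H13_mem : 337012552801 ∈ G := by
  have : (337012552801 : ℕ) = 19 * 23 ^ 3 * 31 ^ 2 * 37 * 41 := by norm_num
  rw [this]
  exact mul_mem (mul_mem (mul_mem (mul_mem (G_gen (by simp)) (pow_mem (G_gen (by simp)) _))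
    (pow_mem (G_gen (by simp)) _)) (G_gen (by simp))) (G_gen (by simp))

theorem H_mem : 55646882942190541 ∈ G := by
  have : (55646882942190541 : ℕ) = 17 * 29 ^ 2 * 37 ^ 7 * 41 := by norm_num
  rw [this]
  exact mul_mem (mul_mem (mul_mem (G_gen (by simp)) (pow_mem (G_gen (by simp)) _))
    (pow_mem (G_gen (by simp)) _)) (G_gen (by simp))

/-- Powers of a number that is `1` modulo `q`. -/
theorem one_pow_mod {H q : ℕ} (h : H ≡ 1 [MOD q]) (k : ℕ) : H ^ k ≡ 1 [MOD q] := by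
  have := h.pow k
  rwa [one_pow] at this

theorem comp_unit (q g : ℕ) (hq : 0 < q)
    (h : ∀ y < q, Nat.Coprime y q → ∃ k < q, g ^ k % q = y) {x : ℕ} (hx : Nat.Coprime x q) :
    ∃ k, g ^ k ≡ x [MOD q] := by
  have hc : Nat.Coprime (x % q) q := ((Nat.mod_modEq x q).gcd_eq).trans hx
  obtain ⟨k, -, hk⟩ := h _ (Nat.mod_lt _ hq) hc
  exact ⟨k, hk⟩

theorem base_units {x : ℕ} (hx : Nat.Coprime x 60060) : ∃ s ∈ G, s ≡ x [MOD 60060] := by
  obtain ⟨k4, h4⟩ := comp_unit 4 3 (by norm_num) (by decide)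
    (hx.coprime_dvd_right (by norm_num : 4 ∣ 60060))
  obtain ⟨k3, h3⟩ := comp_unit 3 2 (by norm_num) (by decide)
    (hx.coprime_dvd_right (by norm_num : 3 ∣ 60060))
  obtain ⟨k5, h5⟩ := comp_unit 5 3 (by norm_num) (by decide)
    (hx.coprime_dvd_right (by norm_num : 5 ∣ 60060))
  obtain ⟨k7, h7⟩ := comp_unit 7 5 (by norm_num) (by decide)
    (hx.coprime_dvd_right (by norm_num : 7 ∣ 60060))
  obtain ⟨k11, h11⟩ := comp_unit 11 8 (by norm_num) (by decide)
    (hx.coprime_dvd_right (by norm_num : 11 ∣ 60060))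
  obtain ⟨k13, h13⟩ := comp_unit 13 2 (by norm_num) (by decide)
    (hx.coprime_dvd_right (by norm_num : 13 ∣ 60060))
  refine ⟨457014227671 ^ k4 * 210290081 ^ k3 * 589493236333 ^ k5 * 8395469941 ^ k7 *
    15189721 ^ k11 * 337012552801 ^ k13,
    mul_mem (mul_mem (mul_mem (mul_mem (mul_mem (pow_mem H4_mem _) (pow_mem H3_mem _))
      (pow_mem H5_mem _)) (pow_mem H7_mem _)) (pow_mem H11_mem _)) (pow_mem H13_mem _), ?_⟩
  have key : ∀ q g4 g3 g5 g7 g11 g13 : ℕ, 457014227671 ≡ g4 [MOD q] → 210290081 ≡ g3 [MOD q] →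
      589493236333 ≡ g5 [MOD q] → 8395469941 ≡ g7 [MOD q] → 15189721 ≡ g11 [MOD q] →
      337012552801 ≡ g13 [MOD q] →
      457014227671 ^ k4 * 210290081 ^ k3 * 589493236333 ^ k5 * 8395469941 ^ k7 *
        15189721 ^ k11 * 337012552801 ^ k13 ≡
      g4 ^ k4 * g3 ^ k3 * g5 ^ k5 * g7 ^ k7 * g11 ^ k11 * g13 ^ k13 [MOD q] := by
    intro q g4 g3 g5 g7 g11 g13 a4 a3 a5 a7 a11 a13
    exact (((((a4.pow k4).mul (a3.pow k3)).mul (a5.pow k5)).mul (a7.pow k7)).mul
      (a11.pow k11)).mul (a13.pow k13)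
  have m4 := key 4 3 1 1 1 1 1 (by decide) (by decide) (by decide) (by decide) (by decide)
    (by decide)
  have m3 := key 3 1 2 1 1 1 1 (by decide) (by decide) (by decide) (by decide) (by decide)
    (by decide)
  have m5 := key 5 1 1 3 1 1 1 (by decide) (by decide) (by decide) (by decide) (by decide)
    (by decide)
  have m7 := key 7 1 1 1 5 1 1 (by decide) (by decide) (by decide) (by decide) (by decide)
    (by decide)
  have m11 := key 11 1 1 1 1 8 1 (by decide) (by decide) (by decide) (by decide) (by decide)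
    (by decide)
  have m13 := key 13 1 1 1 1 1 2 (by decide) (by decide) (by decide) (by decide) (by decide)
    (by decide)
  clear key
  generalize 457014227671 ^ k4 * 210290081 ^ k3 * 589493236333 ^ k5 * 8395469941 ^ k7 *
    15189721 ^ k11 * 337012552801 ^ k13 = s at *
  simp only [one_pow, one_mul, mul_one] at m4 m3 m5 m7 m11 m13
  have n12 := (Nat.modEq_and_modEq_iff_modEq_mul (by norm_num : Nat.Coprime 4 3)).mp
    ⟨m4.trans h4, m3.trans h3⟩
  have n60 := (Nat.modEq_and_modEq_iff_modEq_mul (by norm_num : Nat.Coprime (4 * 3) 5)).mp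
    ⟨n12, m5.trans h5⟩
  have n420 := (Nat.modEq_and_modEq_iff_modEq_mul
    (by norm_num : Nat.Coprime (4 * 3 * 5) 7)).mp ⟨n60, m7.trans h7⟩
  have n4620 := (Nat.modEq_and_modEq_iff_modEq_mul
    (by norm_num : Nat.Coprime (4 * 3 * 5 * 7) 11)).mp ⟨n420, m11.trans h11⟩
  exact (Nat.modEq_and_modEq_iff_modEq_mul
    (by norm_num : Nat.Coprime (4 * 3 * 5 * 7 * 11) 13)).mp ⟨n4620, m13.trans h13⟩

theorem binom3 (X n : ℕ) : ∃ Z, (1 + X) ^ n = 1 + n * X + n.choose 2 * X ^ 2 + X ^ 3 * Z := by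
  induction n with
  | zero => exact ⟨0, by simp⟩
  | succ n ih =>
    obtain ⟨Z, hZ⟩ := ih
    refine ⟨n.choose 2 + Z + X * Z, ?_⟩
    have e : (n + 1).choose 2 = n + n.choose 2 := by
      rw [Nat.choose_succ_succ' n 1, Nat.choose_one_right]
    rw [pow_succ, hZ, e]
    ring

theorem pow_H (t : ℕ) : 1 ≤ t → (∀ p : ℕ, p.Prime → p ∣ t → p ≤ 13) →
    ∃ c, 55646882942190541 ^ t = 1 + 60060 * t * c ∧ Nat.Coprime c 30030 := by
  induction t using induction_on_primes with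
  | zero => intro h; omega
  | one => intro _ _; exact ⟨926521527509, by norm_num, by norm_num⟩
  | prime_mul p t hp ih =>
    intro h1 hP
    have ht : 1 ≤ t := by
      rcases Nat.eq_zero_or_pos t with h | h
      · rw [h, Nat.mul_zero] at h1; omega
      · exact h
    obtain ⟨c, hc, hcop⟩ := ih ht (fun q hq hd => hP q hq (hd.mul_left p))
    have hp13 := hP p hp (dvd_mul_right p t)
    rw [mul_comm p t, pow_mul, hc]
    have fin : ∀ k, Nat.Coprime (c + 30030 * k) 30030 := fun k =>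
      (Nat.coprime_add_mul_left_left c 30030 k).mpr hcop
    obtain ⟨Z, hZ⟩ := binom3 (60060 * t * c) p
    have hp2 := hp.two_le
    interval_cases p
    · exact ⟨c + 30030 * (t * c ^ 2), by ring, fin _⟩
    · refine ⟨c + 30030 * (2 * (t * c ^ 2 + 20020 * t ^ 2 * c ^ 3 * Z)), ?_, fin _⟩
      rw [hZ, show Nat.choose 3 2 = 3 by decide]; ring
    · exact absurd hp (by norm_num)
    · refine ⟨c + 30030 * (2 * (2 * t * c ^ 2 + 12012 * t ^ 2 * c ^ 3 * Z)), ?_, fin _⟩
      rw [hZ, show Nat.choose 5 2 = 10 by decide]; ring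
    · exact absurd hp (by norm_num)
    · refine ⟨c + 30030 * (2 * (3 * t * c ^ 2 + 8580 * t ^ 2 * c ^ 3 * Z)), ?_, fin _⟩
      rw [hZ, show Nat.choose 7 2 = 21 by decide]; ring
    · exact absurd hp (by norm_num)
    · exact absurd hp (by norm_num)
    · exact absurd hp (by norm_num)
    · refine ⟨c + 30030 * (2 * (5 * t * c ^ 2 + 5460 * t ^ 2 * c ^ 3 * Z)), ?_, fin _⟩
      rw [hZ, show Nat.choose 11 2 = 55 by decide]; ring
    · exact absurd hp (by norm_num)
    · refine ⟨c + 30030 * (2 * (6 * t * c ^ 2 + 4620 * t ^ 2 * c ^ 3 * Z)), ?_, fin _⟩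
      rw [hZ, show Nat.choose 13 2 = 78 by decide]; ring

theorem dvd_30030 {p : ℕ} (hp : p.Prime) (h13 : p ≤ 13) : p ∣ 30030 := by
  interval_cases p <;> first | decide | exact absurd hp (by norm_num)

theorem units_all (t : ℕ) : 1 ≤ t → (∀ p : ℕ, p.Prime → p ∣ t → p ≤ 13) →
    ∀ x, Nat.Coprime x (60060 * t) → ∃ s ∈ G, s ≡ x [MOD 60060 * t] := by
  induction t using induction_on_primes with
  | zero => intro h; omega
  | one => intro _ _ x hx; rw [mul_one] at hx ⊢; exact base_units hx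
  | prime_mul p t hp ih =>
    intro h1 hP x hx
    have ht : 1 ≤ t := by
      rcases Nat.eq_zero_or_pos t with h | h
      · rw [h, Nat.mul_zero] at h1; omega
      · exact h
    have hP' : ∀ q : ℕ, q.Prime → q ∣ t → q ≤ 13 := fun q hq hd => hP q hq (hd.mul_left p)
    obtain ⟨s, hs, hsx⟩ := ih ht hP' x (hx.coprime_dvd_right
      (mul_dvd_mul_left _ (dvd_mul_left t p)))
    obtain ⟨c, hc, hcop⟩ := pow_H t ht hP'
    have hp30 := dvd_30030 hp (hP p hp (dvd_mul_right p t))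
    have hcs : Nat.Coprime (s * c) p :=
      ((G_coprime hs).mul_left hcop).coprime_dvd_right hp30
    obtain ⟨u, -, hu⟩ := Nat.exists_mul_mod_eq_one_of_coprime hcs hp.one_lt
    obtain ⟨y, hy⟩ := (Nat.modEq_iff_dvd.mp hsx)
    have hpM : (p : ℤ) ∣ ((60060 * t : ℕ) : ℤ) := by
      exact_mod_cast (hp30.trans (by norm_num : 30030 ∣ 60060)).trans (dvd_mul_right _ _)
    have hp0 : (p : ℤ) ≠ 0 := by exact_mod_cast hp.ne_zero
    obtain ⟨i, hi⟩ : ∃ i : ℕ, (p : ℤ) ∣ y - (s * c : ℕ) * i := by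
      refine ⟨((y * u) % p).toNat, ?_⟩
      rw [Int.toNat_of_nonneg (Int.emod_nonneg _ hp0)]
      have e1 : (p : ℤ) ∣ y * u - (y * u) % p := Int.dvd_self_sub_emod
      have e2 : (p : ℤ) ∣ ((s * c : ℕ) : ℤ) * u - 1 := by
        have : ((s * c * u : ℕ) : ℤ) % p = 1 := by exact_mod_cast hu
        have h3 : (p : ℤ) ∣ ((s * c * u : ℕ) : ℤ) - ((s * c * u : ℕ) : ℤ) % p :=
          Int.dvd_self_sub_emod
        rw [this] at h3
        push_cast at h3 ⊢
        exact h3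
      have e3 : y - ((s * c : ℕ) : ℤ) * ((y * u) % p) =
          ((s * c : ℕ) : ℤ) * (y * u - (y * u) % p) - y * (((s * c : ℕ) : ℤ) * u - 1) := by ring
      rw [e3]
      exact dvd_sub (e1.mul_left _) (e2.mul_left _)
    refine ⟨s * (55646882942190541 ^ t) ^ i, mul_mem hs (pow_mem (pow_mem H_mem _) _), ?_⟩
    rw [hc]
    obtain ⟨Z, hZ⟩ := binom3 (60060 * t * c) i
    rw [Nat.modEq_iff_dvd, hZ]
    obtain ⟨v, hv⟩ := hi
    obtain ⟨m, hm⟩ := hpM
    refine ⟨v - s * c ^ 2 * m * i.choose 2 - s * c ^ 3 * m * (60060 * t) * Z, ?_⟩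
    push_cast at hy hv hm ⊢
    have hx' : (x : ℤ) = s + 60060 * t * y := by linarith
    have hy' : y = s * c * i + p * v := by linarith
    have e1 : (60060 * (t : ℤ) * c) ^ 2 = 60060 * t * (p * m) * c ^ 2 := by rw [← hm]; ring
    have e2 : (60060 * (t : ℤ) * c) ^ 3 = 60060 * t * (p * m) * c ^ 3 * (60060 * t) := by
      rw [← hm]; ring
    rw [e1, e2, hx', hy']
    ring

/-- A number coprime to `30030` is coprime to every number with prime factors at most `13`. -/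
theorem cop_of {o M : ℕ} (ho : Nat.Coprime o 30030)
    (hM : ∀ p : ℕ, p.Prime → p ∣ M → p ≤ 13) : Nat.Coprime o M := by
  apply Nat.coprime_of_dvd
  intro p hp h1 h2
  have h3 := dvd_30030 hp (hM p hp h2)
  have := Nat.dvd_gcd h1 h3
  rw [ho] at this
  exact absurd (Nat.dvd_one.mp this) hp.one_lt.ne'

/-- Splitting off the prime factors up to `13`. -/
theorem split (R : ℕ) : 1 ≤ R → ∃ w e R' : ℕ, R = w * (2 ^ e * R') ∧
    (Odd w ∧ ∀ q : ℕ, q.Prime → q ∣ w → q ≤ 43) ∧ Nat.Coprime R' 30030 := by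
  induction R using induction_on_primes with
  | zero => intro h; omega
  | one =>
    intro _
    refine ⟨1, 0, 1, by norm_num, ⟨odd_one, fun q hq hd => ?_⟩, by norm_num⟩
    exact absurd (Nat.dvd_one.mp hd) hq.one_lt.ne'
  | prime_mul p t hp ih =>
    intro h1
    have ht : 1 ≤ t := by
      rcases Nat.eq_zero_or_pos t with h | h
      · rw [h, Nat.mul_zero] at h1; omega
      · exact h
    obtain ⟨w, e, R', hR, ⟨hw1, hw2⟩, hc⟩ := ih ht
    rcases Nat.lt_or_ge 13 p with h13 | h13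
    · refine ⟨w, e, p * R', by rw [hR]; ring, ⟨hw1, hw2⟩, Nat.Coprime.mul_left ?_ hc⟩
      rw [Nat.Prime.coprime_iff_not_dvd hp]
      intro hd
      have e30 : (30030 : ℕ) = 2 * 3 * 5 * 7 * 11 * 13 := by norm_num
      rw [e30] at hd
      have l : ∀ q : ℕ, q.Prime → q ≤ 13 → ¬ p ∣ q := by
        intro q hq hq13 hd'
        have := (Nat.prime_dvd_prime_iff_eq hp hq).mp hd'
        omega
      rcases (Nat.Prime.dvd_mul hp).mp hd with hd | hd
      · rcases (Nat.Prime.dvd_mul hp).mp hd with hd | hd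
        · rcases (Nat.Prime.dvd_mul hp).mp hd with hd | hd
          · rcases (Nat.Prime.dvd_mul hp).mp hd with hd | hd
            · rcases (Nat.Prime.dvd_mul hp).mp hd with hd | hd
              · exact l 2 (by norm_num) (by norm_num) hd
              · exact l 3 (by norm_num) (by norm_num) hd
            · exact l 5 (by norm_num) (by norm_num) hd
          · exact l 7 (by norm_num) (by norm_num) hd
        · exact l 11 (by norm_num) (by norm_num) hd
      · exact l 13 (by norm_num) (by norm_num) hd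
    · rcases hp.eq_two_or_odd' with rfl | hodd
      · exact ⟨w, e + 1, R', by rw [hR]; ring, ⟨hw1, hw2⟩, hc⟩
      · refine ⟨p * w, e, R', by rw [hR]; ring, ⟨hodd.mul hw1, fun q hq hd => ?_⟩, hc⟩
        rcases (Nat.Prime.dvd_mul hq).mp hd with h | h
        · have := (Nat.prime_dvd_prime_iff_eq hq hp).mp h
          omega
        · exact hw2 q hq h

/-! ### Two-adic valuations of `3 ^ (2 j + 1) + 5` -/

theorem nine_pow (n : ℕ) : ∃ k, 9 ^ 2 ^ n = 1 + 2 ^ (n + 3) * k ∧ Odd k := by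
  induction n with
  | zero => exact ⟨1, by norm_num, odd_one⟩
  | succ n ih =>
    obtain ⟨k, hk, ho⟩ := ih
    refine ⟨k + 2 ^ (n + 2) * k ^ 2, ?_, ?_⟩
    · rw [pow_succ 2 n, pow_mul, hk]; ring
    · rw [Nat.odd_add]
      refine ⟨fun _ => ?_, fun _ => ho⟩
      rw [pow_succ]
      exact ((even_two.mul_left _).mul_right _)

theorem shift_five (n j : ℕ) {o : ℕ} (h : 3 ^ (2 * j + 1) + 5 = 2 ^ (n + 3) * o) :
    ∃ d, 3 ^ (2 * (j + 2 ^ n) + 1) + 5 = 2 ^ (n + 3) * (o + d) ∧ Odd d := by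
  obtain ⟨k, hk, ho⟩ := nine_pow n
  refine ⟨3 ^ (2 * j + 1) * k, ?_, (Odd.pow (by decide)).mul ho⟩
  have e : 3 ^ (2 * (j + 2 ^ n) + 1) = 3 ^ (2 * j + 1) * 9 ^ 2 ^ n := by
    rw [show (9 : ℕ) = 3 ^ 2 by norm_num, ← pow_mul, ← pow_add]; congr 1; ring
  rw [e, hk]
  calc 3 ^ (2 * j + 1) * (1 + 2 ^ (n + 3) * k) + 5
      = (3 ^ (2 * j + 1) + 5) + 2 ^ (n + 3) * (3 ^ (2 * j + 1) * k) := by ring
    _ = 2 ^ (n + 3) * (o + 3 ^ (2 * j + 1) * k) := by rw [h]; ring

theorem five_div (j0 n : ℕ) : ∃ j, j0 ≤ j ∧ ∃ o, 3 ^ (2 * j + 1) + 5 = 2 ^ (n + 3) * o := by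
  induction n with
  | zero =>
    refine ⟨j0, le_rfl, ?_⟩
    have : (3 ^ (2 * j0 + 1) + 5) % 8 = 0 := by
      have h9 : 9 ^ j0 % 8 = 1 := by rw [Nat.pow_mod]; norm_num
      rw [pow_succ, pow_mul]; norm_num; omega
    exact ⟨(3 ^ (2 * j0 + 1) + 5) / 8, by
      have := Nat.div_add_mod (3 ^ (2 * j0 + 1) + 5) 8; omega⟩
  | succ n ih =>
    obtain ⟨j, hj, o, ho⟩ := ih
    rcases Nat.even_or_odd o with he | hod
    · obtain ⟨r, hr⟩ := he
      exact ⟨j, hj, r, by rw [ho, hr]; ring⟩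
    · obtain ⟨d, hd, hdo⟩ := shift_five n j ho
      obtain ⟨r, hr⟩ := hod.add_odd hdo
      exact ⟨j + 2 ^ n, hj.trans (Nat.le_add_right _ _), r, by rw [hd, hr]; ring⟩

theorem five_val (j0 n : ℕ) :
    ∃ j, j0 ≤ j ∧ ∃ o, 3 ^ (2 * j + 1) + 5 = 2 ^ (n + 3) * o ∧ Odd o := by
  obtain ⟨j, hj, o, ho⟩ := five_div j0 n
  rcases Nat.even_or_odd o with he | hod
  · obtain ⟨d, hd, hdo⟩ := shift_five n j ho
    exact ⟨j + 2 ^ n, hj.trans (Nat.le_add_right _ _), o + d, hd, he.add_odd hdo⟩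
  · exact ⟨j, hj, o, ho, hod⟩

theorem res (j : ℕ) : (3 ^ (2 * j + 1) % 5 = 3 ∨ 3 ^ (2 * j + 1) % 5 = 2) ∧
    (3 ^ (2 * j + 1) % 7 = 3 ∨ 3 ^ (2 * j + 1) % 7 = 6 ∨ 3 ^ (2 * j + 1) % 7 = 5) ∧
    (3 ^ (2 * j + 1) % 11 = 3 ∨ 3 ^ (2 * j + 1) % 11 = 5 ∨ 3 ^ (2 * j + 1) % 11 = 1 ∨
      3 ^ (2 * j + 1) % 11 = 9 ∨ 3 ^ (2 * j + 1) % 11 = 4) ∧
    (3 ^ (2 * j + 1) % 13 = 3 ∨ 3 ^ (2 * j + 1) % 13 = 1 ∨ 3 ^ (2 * j + 1) % 13 = 9) ∧
    3 ^ (2 * j + 1) % 3 = 0 := by
  induction j with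
  | zero => norm_num
  | succ j ih =>
    have e : 3 ^ (2 * (j + 1) + 1) = 9 * 3 ^ (2 * j + 1) := by
      rw [show 2 * (j + 1) + 1 = 2 * j + 1 + 2 by ring, pow_add]; ring
    rw [e]
    generalize 3 ^ (2 * j + 1) = x at *
    obtain ⟨h5, h7, h11, h13, h3⟩ := ih
    refine ⟨?_, ?_, ?_, ?_, ?_⟩
    · clear h7 h11 h13 h3; omega
    · clear h5 h11 h13 h3; omega
    · clear h5 h7 h13 h3; omega
    · clear h5 h7 h11 h3; omega
    · clear h5 h7 h11 h13; omega

theorem five_coprime (j : ℕ) {e o : ℕ} (h : 3 ^ (2 * j + 1) + 5 = 2 ^ e * o) (ho : Odd o) :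
    Nat.Coprime o 30030 := by
  obtain ⟨h5, h7, h11, h13, h3⟩ := res j
  have key : ∀ q : ℕ, q.Prime → (3 ^ (2 * j + 1) + 5) % q ≠ 0 → Nat.Coprime o q := by
    intro q hq hne
    rw [Nat.coprime_comm, Nat.Prime.coprime_iff_not_dvd hq]
    intro hd
    exact hne (Nat.mod_eq_zero_of_dvd (h ▸ hd.mul_left (2 ^ e)))
  clear h
  generalize 3 ^ (2 * j + 1) = x at *
  have c2 : Nat.Coprime o 2 := Nat.coprime_two_right.mpr ho
  have c3 := key 3 (by norm_num) (by clear h5 h7 h11 h13; omega)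
  have c5 := key 5 (by norm_num) (by clear h3 h7 h11 h13; omega)
  have c7 := key 7 (by norm_num) (by clear h3 h5 h11 h13; omega)
  have c11 := key 11 (by norm_num) (by clear h3 h5 h7 h13; omega)
  have c13 := key 13 (by norm_num) (by clear h3 h5 h7 h11; omega)
  have := ((((c2.mul_right c3).mul_right c5).mul_right c7).mul_right c11).mul_right c13
  simpa using this

end Pool.Agent.HalfDiff
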